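import Pool.Agent.Helper62.PQ.CIC4

/-!
# PQ row CIC: the conductor of the induced representation
-/

set_option autoImplicit false
set_option linter.unusedSectionVars false

open NumberField
open scoped Classical

namespace PQCIC

open BKA PQ PQ30 Pool.Agent.Helper13.Swan

section

variable {F F₀ : Type} [Field F] [NumberField F] [Field F₀] [NumberField F₀] [Algebra F₀ F]
  {δ : F₀}

/-- the large fields -/
theorem QD.exists_L (Q : QD F F₀ δ) (L₀ : IntermediateField F (AlgebraicClosure F))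
    [FiniteDimensional F L₀] (L₀' : IntermediateField F₀ (AlgebraicClosure F₀))
    [FiniteDimensional F₀ L₀'] :
    ∃ (L : IntermediateField F (AlgebraicClosure F))
      (L' : IntermediateField F₀ (AlgebraicClosure F₀)),
      L₀ ≤ L ∧ L₀' ≤ L' ∧ FiniteDimensional F L ∧ FiniteDimensional F₀ L' ∧ Normal F L ∧
      Normal F₀ L' ∧ ∀ z, z ∈ L ↔ Q.θ z ∈ L' := by
  have hfd : FiniteDimensional F₀ F := FiniteDimensional.of_finrank_pos (by rw [Q.fr]; norm_num)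
  have hfd1 : FiniteDimensional F₀ L₀ := FiniteDimensional.trans F₀ F L₀
  let ψ : L₀ →ₐ[F₀] AlgebraicClosure F₀ :=
    { toFun := fun x => Q.θ (x : AlgebraicClosure F)
      map_one' := by simp
      map_mul' := by simp
      map_zero' := by simp
      map_add' := by simp
      commutes' := Q.hθ }
  let M₁ : IntermediateField F₀ (AlgebraicClosure F₀) := ψ.fieldRange
  have hfdM : FiniteDimensional F₀ M₁ :=
    LinearEquiv.finiteDimensional (AlgEquiv.ofInjectiveField ψ).toLinearEquiv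
  have hfdS : FiniteDimensional F₀ (L₀' ⊔ M₁ : IntermediateField F₀ (AlgebraicClosure F₀)) :=
    inferInstance
  let L' : IntermediateField F₀ (AlgebraicClosure F₀) :=
    IntermediateField.normalClosure F₀ (L₀' ⊔ M₁ : IntermediateField F₀ (AlgebraicClosure F₀))
      (AlgebraicClosure F₀)
  have hfd' : FiniteDimensional F₀ L' := normalClosure.is_finiteDimensional F₀ _ _
  have hn' : Normal F₀ L' := normalClosure.normal F₀ _ _
  have hle : (L₀' ⊔ M₁ : IntermediateField F₀ (AlgebraicClosure F₀)) ≤ L' :=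
    IntermediateField.le_normalClosure _
  have hM : ∀ x ∈ L₀, Q.θ x ∈ L' := fun x hx => hle (le_sup_right (a := L₀') ⟨⟨x, hx⟩, rfl⟩)
  let L : IntermediateField F (AlgebraicClosure F) :=
    { carrier := {z | Q.θ z ∈ L'}
      mul_mem' := by
        intro a b ha hb
        change Q.θ (a * b) ∈ L'
        rw [map_mul]
        exact L'.mul_mem ha hb
      add_mem' := by
        intro a b ha hb
        change Q.θ (a + b) ∈ L'
        rw [map_add]
        exact L'.add_mem ha hb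
      algebraMap_mem' := fun x => hM _ (L₀.algebraMap_mem x)
      inv_mem' := by
        intro a ha
        change Q.θ a⁻¹ ∈ L'
        rw [map_inv₀]
        exact L'.inv_mem ha }
  have hL : ∀ z, z ∈ L ↔ Q.θ z ∈ L' := fun z => Iff.rfl
  have hfdL0 : FiniteDimensional F₀ L := by
    let f : L →ₗ[F₀] L' :=
      { toFun := Q.thL hL
        map_add' := fun x y => map_add _ x y
        map_smul' := by
          intro r x
          apply Subtype.ext
          change Q.θ ((r • x : L) : AlgebraicClosure F) = ((r • Q.thL hL x : L') :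
            AlgebraicClosure F₀)
          rw [Algebra.smul_def, Algebra.smul_def]
          change Q.θ (algebraMap F (AlgebraicClosure F) (algebraMap F₀ F r) *
            (x : AlgebraicClosure F)) = algebraMap F₀ (AlgebraicClosure F₀) r * Q.θ x
          rw [map_mul, Q.hθ] }
    exact FiniteDimensional.of_injective f (Q.thL hL).injective
  have hfdL : FiniteDimensional F L := Module.Finite.of_restrictScalars_finite F₀ F L
  have hnL : Normal F L := by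
    rw [IntermediateField.normal_iff_forall_map_le']
    rintro σ _ ⟨z, hz, rfl⟩
    change Q.θ (σ z) ∈ L'
    rw [← Q.up_apply]
    have h1 := (IntermediateField.normal_iff_forall_map_le'.1 hn') (Q.up σ)
    exact h1 ⟨Q.θ z, hz, rfl⟩
  exact ⟨L, L', hM, le_sup_left.trans hle, hfdL, hfd', hnL, hn', hL⟩

theorem term {K : Type} [Field K] {n : ℕ} {ρ : Gal F →* Matrix.GeneralLinearGroup (Fin n) K}
    {ρ₀ : Gal F₀ →* Matrix.GeneralLinearGroup (Fin (2 * n)) K} (Q : QD F F₀ δ)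
    (I : IndD ρ ρ₀ Q.up) (ℓ : ℕ) [Fact ℓ.Prime] [Algebra ℚ_[ℓ] K] [TopologicalSpace K]
    (R₁ : Orth F₀ 1 0 δ ℓ K) (H : Subgroup (Gal F₀)) {s : Gal F₀} (hs : s ∉ Q.up.range)
    (h1 : ∀ h ∈ H, s * h * s⁻¹ ∈ H ∧ s⁻¹ * h * s ∈ H) (r₀ r : ℕ)
    (hA : ∀ t ∈ H, t ∉ Q.up.range → r₀ = 2 * r) (hB : (∀ t ∈ H, t ∈ Q.up.range) → r₀ = r) :
    r₀ * codim ρ₀ (H : Set (Gal F₀)) = 2 * (r * codim ρ {σ | Q.up σ ∈ H}) +
      n * (r₀ * codim R₁.ρ (H : Set (Gal F₀))) := by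
  unfold codim
  by_cases hH : ∀ t ∈ H, t ∈ Q.up.range
  · rw [I.rank_one H hH hs (fun h hh => (h1 h hh).1) (fun h hh => (h1 h hh).2),
      kappa_one Q ℓ R₁ (H : Set (Gal F₀)) hH, hB hH]
    have e : 2 * n - 2 * Module.finrank K (fixd ρ {σ | Q.up σ ∈ H}) =
        2 * (n - Module.finrank K (fixd ρ {σ | Q.up σ ∈ H})) := by omega
    rw [e]
    ring
  · push Not at hH
    obtain ⟨t, ht, htr⟩ := hH
    rw [I.rank_two H ht htr, kappa_zero Q ℓ R₁ (H : Set (Gal F₀)) ht htr, hA t ht htr]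
    have hle : Module.finrank K (fixd ρ {σ | Q.up σ ∈ H}) ≤ n := by
      have := Submodule.finrank_le (fixd ρ {σ | Q.up σ ∈ H})
      rwa [Module.finrank_fin_fun] at this
    obtain ⟨m, hm⟩ := Nat.exists_eq_add_of_le hle
    have e1 : 2 * n - Module.finrank K (fixd ρ {σ | Q.up σ ∈ H}) =
        Module.finrank K (fixd ρ {σ | Q.up σ ∈ H}) + 2 * m := by omega
    have e2 : n - Module.finrank K (fixd ρ {σ | Q.up σ ∈ H}) = m := by omega
    rw [e1, e2]
    conv_rhs => rw [hm]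
    ring

end

/-- CIC: the conductor of the induced representation, at a place that ramifies. -/
theorem cic (hCDL : ST_CDL) (hF : PQ.ST_FIN) (hG : PQ.ST_GRP) (hS : PQ.ST_SUR)
    (hW : PQ.ST_WSUR) (hT : PQ.ST_TAME) : ST_CIC := by
  intro F _ _ c F₀ _ _ _ δ hfr hδ ⟨y, hy, hcy⟩ hc ℓ _ K _ _ _ R₁ n ρ ρ₀ hI v v₀ hv hv₀ hℓ a d
    ha hd
  have hchar : CharZero K := charZero_of_injective_algebraMap (algebraMap ℚ_[ℓ] K).injective
  obtain ⟨Q, hQc, ⟨I⟩⟩ := QD.exists_ind hfr hδ hy hcy hc hI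
  obtain ⟨𝔓₀, hO₀⟩ : ∃ 𝔓₀ : Ideal (Zb F₀), Over v₀ 𝔓₀ := by
    obtain ⟨𝔓₀, _, h, -⟩ := hd
    exact ⟨𝔓₀, h⟩
  rw [← hQc] at hv
  have hO := Q.over hO₀ hv hv₀
  obtain ⟨L₀, hfd0, hL₀⟩ := hCDL F K n ρ v a ha (Q.pr 𝔓₀) hO
  obtain ⟨L₀', hfd0', hL₀'⟩ := hCDL F₀ K 1 R₁.ρ v₀ d hd 𝔓₀ hO₀
  obtain ⟨L, L', hle, hle', hfd, hfd', hn, hn', hL⟩ := Q.exists_L L₀ L₀'
  obtain ⟨hρ1, hρ2⟩ := hL₀ L hle hfd hn
  obtain ⟨hκ1, hκ2⟩ := hL₀' L' hle' hfd' hn'
  obtain ⟨s, hs, hsr⟩ := Q.exists_s hS hO₀ hv hO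
  obtain ⟨g1, g2, g3, g4, g5, g6, g7, g8⟩ := hG F₀ v₀ 𝔓₀ hO₀
  have hzL : ∀ (t : Gal F₀) (g : L' ≃ₐ[F₀] L'), On L' t g →
      (g ∈ (Q.upL hL).range ↔ t ∈ Q.up.range) := by
    intro t g h
    rw [Q.mem_rangeL, Q.mem_range]
    have h1 := h (Q.zL hL)
    rw [Q.zL_coe] at h1
    rw [h1]
    constructor
    · intro h2
      rw [h2, Q.zL_coe]
    · intro h2
      exact Subtype.ext h2
  -- inertia
  let H0 : Subgroup (Gal F₀) :=
    { carrier := {σ | Congr 𝔓₀ 1 σ}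
      one_mem' := by
        intro x y hxy
        have : y = x := Subtype.ext hxy
        rw [this, pow_one, sub_self]
        exact Ideal.zero_mem _
      mul_mem' := fun {a b} ha hb => g1 a b ha hb
      inv_mem' := fun {a} ha => g2 a ha }
  have hcard0 : ramCard L' 𝔓₀ 0 = 2 * ramCard L (Q.pr 𝔓₀) 0 := by
    obtain ⟨g, hg, hOn⟩ := g7 L' hn' s hs
    refine Q.card_two hL 𝔓₀ 0 (t := g) ?_ (fun hc => hsr ((hzL s g hOn).1 hc))
    intro x y hxy
    rw [zero_add, pow_one]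
    exact hg x y hxy
  have t0 := term Q I ℓ R₁ H0 hsr
    (fun h hh => ⟨H0.mul_mem (H0.mul_mem hs hh) (H0.inv_mem hs),
      H0.mul_mem (H0.mul_mem (H0.inv_mem hs) hh) hs⟩) (ramCard L' 𝔓₀ 0)
    (ramCard L (Q.pr 𝔓₀) 0) (fun _ _ _ => hcard0) (fun h => absurd (h s hs) hsr)
  have hset0 : {σ | Q.up σ ∈ H0} = {σ | Congr (Q.pr 𝔓₀) 1 σ} := by
    ext σ
    exact (Q.congr_up 𝔓₀ σ).symm
  have hset0' : (H0 : Set (Gal F₀)) = {σ | Congr 𝔓₀ 1 σ} := rfl
  rw [hset0, hset0'] at t0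
  -- the terms
  have ti : ∀ i : ℕ, ramCard L' 𝔓₀ (i + 1) *
      codim ρ₀ {σ | Wild 𝔓₀ σ ∧ Ram L' 𝔓₀ (i + 1) σ} =
      2 * (ramCard L (Q.pr 𝔓₀) (i + 1) *
        codim ρ {σ | Wild (Q.pr 𝔓₀) σ ∧ Ram L (Q.pr 𝔓₀) (i + 1) σ}) +
      n * (ramCard L' 𝔓₀ (i + 1) *
        codim R₁.ρ {σ | Wild 𝔓₀ σ ∧ Ram L' 𝔓₀ (i + 1) σ}) := by
    intro i
    obtain ⟨H, hH, hconj⟩ := exists_H hF hG hO₀ L' hfd' hn' i
    have t1 := term Q I ℓ R₁ H hsr (hconj s hs) (ramCard L' 𝔓₀ (i + 1))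
      (ramCard L (Q.pr 𝔓₀) (i + 1)) ?_ ?_
    · have e1 : (H : Set (Gal F₀)) = {σ | Wild 𝔓₀ σ ∧ Ram L' 𝔓₀ (i + 1) σ} := by
        ext σ
        exact hH σ
      have e2 : {σ | Q.up σ ∈ H} =
          {σ | Wild (Q.pr 𝔓₀) σ ∧ Ram L (Q.pr 𝔓₀) (i + 1) σ} := by
        ext σ
        change Q.up σ ∈ H ↔ _
        rw [hH, ← Q.wild_up hF hG hT hO₀ hO hv₀, ← Q.ram_up hL]
        rfl
      rw [e1, e2] at t1
      exact t1
    · intro t ht htr
      obtain ⟨hw, hr⟩ := (hH t).1 ht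
      obtain ⟨g, hg, hOn⟩ := g7 L' hn' t (g3 t hw)
      refine Q.card_two hL 𝔓₀ (i + 1) (t := g) ?_ (fun hc => htr ((hzL t g hOn).1 hc))
      exact (g8 L' (i + 1) t g hOn).1 hr
    · intro hH'
      refine Q.card_eq hL 𝔓₀ (i + 1) fun g hg => ?_
      have hg2 : ∀ x y : 𝓞 L', (y : L') = g (x : L') → y - x ∈ under L' 𝔓₀ ^ 2 :=
        fun x y hxy => Ideal.pow_le_pow_right (by omega) (hg x y hxy)
      obtain ⟨σ, hσ, hOn⟩ := hW F₀ v₀ 𝔓₀ hO₀ L' hfd' hn' g hg2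
      refine (hzL σ g hOn).2 (hH' σ ((hH σ).2 ⟨hσ, (g8 L' (i + 1) σ g hOn).2 hg⟩))
  -- the sum
  obtain ⟨N, hN⟩ := codim_zero hF hG hO L hfd hn ρ hρ1
  obtain ⟨N', hN'⟩ := codim_zero hF hG hO₀ L' hfd' hn' R₁.ρ hκ1
  have hf : (Function.support fun i : ℕ => ramCard L (Q.pr 𝔓₀) (i + 1) *
      codim ρ {σ | Wild (Q.pr 𝔓₀) σ ∧ Ram L (Q.pr 𝔓₀) (i + 1) σ}).Finite := by
    refine (Set.finite_lt_nat N).subset fun i hi => ?_
    by_contra hcon
    exact hi (by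
      change ramCard L (Q.pr 𝔓₀) (i + 1) * codim ρ _ = 0
      rw [hN i (not_lt.1 hcon), mul_zero])
  have hk : (Function.support fun i : ℕ => ramCard L' 𝔓₀ (i + 1) *
      codim R₁.ρ {σ | Wild 𝔓₀ σ ∧ Ram L' 𝔓₀ (i + 1) σ}).Finite := by
    refine (Set.finite_lt_nat N').subset fun i hi => ?_
    by_contra hcon
    exact hi (by
      change ramCard L' 𝔓₀ (i + 1) * codim R₁.ρ _ = 0
      rw [hN' i (not_lt.1 hcon), mul_zero])
  have hsum : ∑ᶠ i : ℕ, ramCard L' 𝔓₀ (i + 1) *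
      codim ρ₀ {σ | Wild 𝔓₀ σ ∧ Ram L' 𝔓₀ (i + 1) σ} =
      2 * (∑ᶠ i : ℕ, ramCard L (Q.pr 𝔓₀) (i + 1) *
        codim ρ {σ | Wild (Q.pr 𝔓₀) σ ∧ Ram L (Q.pr 𝔓₀) (i + 1) σ}) +
      n * (∑ᶠ i : ℕ, ramCard L' 𝔓₀ (i + 1) *
        codim R₁.ρ {σ | Wild 𝔓₀ σ ∧ Ram L' 𝔓₀ (i + 1) σ}) := by
    rw [mul_finsum, mul_finsum, ← finsum_add_distrib]
    · exact finsum_congr ti
    · refine hf.subset fun i hi hc => hi ?_
      have hc' := congrArg (fun t => 2 * t) hc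
      simpa using hc'
    · refine hk.subset fun i hi hc => hi ?_
      have hc' := congrArg (fun t => n * t) hc
      change n * _ = n * 0 at hc'
      rw [mul_zero] at hc'
      exact hc'
  refine ⟨𝔓₀, L', hO₀, hfd', hn', ?_, ?_⟩
  · intro σ hσ hfix
    have hAB' := I.ag s⁻¹ (fun hc => hsr (by simpa using Q.up.range.inv_mem hc))
    obtain ⟨A', B', hAB'⟩ := hAB'
    have hB0' : B' 0 = 0 := by
      have e := hAB' 0 0
      rw [Prod.mk_zero_zero, map_zero, vec_zero, ← map_zero I.Φ] at e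
      exact (congrArg Prod.snd (I.Φ.injective e)).symm
    have key : ∀ σ : Gal F₀, Wild 𝔓₀ σ → (∀ x ∈ L', σ x = x) → ∀ x : Fin n → K,
        vec ρ₀ σ (I.Φ (x, 0)) = I.Φ (x, 0) := by
      intro σ hσ hfix x
      obtain ⟨τ, rfl⟩ : σ ∈ Q.up.range := by
        rw [Q.mem_range]
        exact hfix _ (Q.zL hL).2
      obtain ⟨B, hB⟩ := I.dg τ
      have h0 : B 0 = 0 := by
        have e := hB 0 0
        rw [Prod.mk_zero_zero, map_zero, vec_zero, ← map_zero I.Φ] at e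
        exact (congrArg Prod.snd (I.Φ.injective e)).symm
      have h1 : ρ τ = 1 := by
        refine hρ1 τ ((Q.wild_up hF hG hT hO₀ hO hv₀ τ).2 hσ) fun z hz => ?_
        apply Q.θ.injective
        rw [← Q.up_apply]
        exact hfix _ ((hL z).1 hz)
      rw [hB, h0]
      unfold vec
      rw [h1, Units.val_one, Matrix.one_mulVec]
    have key2 : ∀ y : Fin n → K, vec ρ₀ σ (I.Φ (0, y)) = I.Φ (0, y) := by
      intro y
      have h1 : vec ρ₀ s⁻¹ (I.Φ (0, y)) = I.Φ (A' y, 0) := by rw [hAB', hB0']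
      have h2 : vec ρ₀ s (I.Φ (A' y, 0)) = I.Φ (0, y) := by
        rw [← h1, ← vec_mul, mul_inv_cancel, vec_one]
      have h3 := key (s⁻¹ * σ * s) (by
        have := g6 σ s⁻¹ hσ (g2 s hs)
        rwa [inv_inv] at this) (by
        intro x hx
        have hsx : s x ∈ L' := by
          have h1 := (IntermediateField.normal_iff_forall_map_le'.1 hn') s
          exact h1 ⟨x, hx, rfl⟩
        have : (s⁻¹ * σ * s) x = s⁻¹ (σ (s x)) := rfl
        rw [this, hfix _ hsx]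
        exact AlgEquiv.symm_apply_apply s x) (A' y)
      have h4 : σ * s = s * (s⁻¹ * σ * s) := by group
      rw [← h2, ← vec_mul, h4, vec_mul, h3]
    have h5 : ∀ w, vec ρ₀ σ w = w := by
      intro w
      obtain ⟨⟨x, y⟩, rfl⟩ := I.Φ.surjective w
      have e : I.Φ (x, y) = I.Φ (x, 0) + I.Φ (0, y) := by
        rw [← map_add, Prod.mk_add_mk, add_zero, zero_add]
      rw [e, vec_add, key σ hσ hfix, key2]
    apply Units.ext
    apply Matrix.toLin'.injective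
    apply LinearMap.ext
    intro w
    rw [Matrix.toLin'_apply, Units.val_one, Matrix.toLin'_one]
    exact h5 w
  · rw [hsum, t0]
    have e1 : ramCard L' 𝔓₀ 0 * (a + n * d) =
        2 * (ramCard L (Q.pr 𝔓₀) 0 * a) + n * (ramCard L' 𝔓₀ 0 * d) := by
      rw [hcard0]
      ring
    rw [e1, hρ2, hκ2]
    ring

end PQCIC
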