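import Pool.Agent.Helper30.PQ.WSUR
import Pool.Agent.Helper94.PQ.StmtsC

/-!
# PQ row CIC, part 1: the invariants of an induced representation
-/

set_option autoImplicit false
set_option linter.unusedSectionVars false

open NumberField
open scoped Classical

namespace PQCIC

open BKA PQ

section

variable {F F₀ : Type} [Field F] [NumberField F] [Field F₀] [NumberField F₀] {K : Type} [Field K]
  {n : ℕ}

theorem vec_mul {m : ℕ} (ρ : Gal F →* Matrix.GeneralLinearGroup (Fin m) K) (g h : Gal F)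
    (x : Fin m → K) : vec ρ (g * h) x = vec ρ g (vec ρ h x) := by
  unfold vec
  rw [map_mul, Units.val_mul, Matrix.mulVec_mulVec]

theorem vec_one {m : ℕ} (ρ : Gal F →* Matrix.GeneralLinearGroup (Fin m) K)
    (x : Fin m → K) : vec ρ 1 x = x := by
  unfold vec
  rw [map_one, Units.val_one, Matrix.one_mulVec]

theorem vec_add {m : ℕ} (ρ : Gal F →* Matrix.GeneralLinearGroup (Fin m) K) (g : Gal F)
    (x y : Fin m → K) : vec ρ g (x + y) = vec ρ g x + vec ρ g y := Matrix.mulVec_add _ _ _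

theorem vec_smul {m : ℕ} (ρ : Gal F →* Matrix.GeneralLinearGroup (Fin m) K) (g : Gal F)
    (a : K) (x : Fin m → K) : vec ρ g (a • x) = a • vec ρ g x := Matrix.mulVec_smul _ _ _

theorem vec_zero {m : ℕ} (ρ : Gal F →* Matrix.GeneralLinearGroup (Fin m) K) (g : Gal F) :
    vec ρ g 0 = 0 := Matrix.mulVec_zero _

theorem mem_fixd {m : ℕ} (ρ : Gal F →* Matrix.GeneralLinearGroup (Fin m) K) (S : Set (Gal F))
    (x : Fin m → K) : x ∈ fixd ρ S ↔ ∀ σ ∈ S, vec ρ σ x = x := Iff.rfl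

/-- data of an induced representation -/
structure IndD (ρ : Gal F →* Matrix.GeneralLinearGroup (Fin n) K)
    (ρ₀ : Gal F₀ →* Matrix.GeneralLinearGroup (Fin (2 * n)) K) (up : Gal F →* Gal F₀) where
  Φ : ((Fin n → K) × (Fin n → K)) ≃ₗ[K] (Fin (2 * n) → K)
  dg : ∀ σ : Gal F, ∃ B : (Fin n → K) → (Fin n → K), ∀ x y,
    vec ρ₀ (up σ) (Φ (x, y)) = Φ (vec ρ σ x, B y)
  ag : ∀ t : Gal F₀, t ∉ up.range → ∃ A B : (Fin n → K) → (Fin n → K), ∀ x y,
    vec ρ₀ t (Φ (x, y)) = Φ (A y, B x)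
  two : ∀ g h : Gal F₀, g ∉ up.range → h ∉ up.range → g * h ∈ up.range

variable {ρ : Gal F →* Matrix.GeneralLinearGroup (Fin n) K}
    {ρ₀ : Gal F₀ →* Matrix.GeneralLinearGroup (Fin (2 * n)) K} {up : Gal F →* Gal F₀}

theorem IndD.fix0 (I : IndD ρ ρ₀ up) (H : Subgroup (Gal F₀)) {x : Fin n → K}
    (hx : x ∈ fixd ρ {σ | up σ ∈ H}) {h : Gal F₀} (hh : h ∈ H) (hr : h ∈ up.range) :
    vec ρ₀ h (I.Φ (x, 0)) = I.Φ (x, 0) := by
  obtain ⟨σ, rfl⟩ := hr
  obtain ⟨B, hB⟩ := I.dg σ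
  have h0 : B 0 = 0 := by
    have e := hB 0 0
    rw [Prod.mk_zero_zero, map_zero, vec_zero, ← map_zero I.Φ] at e
    exact (congrArg Prod.snd (I.Φ.injective e)).symm
  rw [hB, h0, (mem_fixd ρ _ x).1 hx σ hh]

theorem IndD.fst_mem (I : IndD ρ ρ₀ up) (H : Subgroup (Gal F₀)) {x y : Fin n → K}
    (h : ∀ g ∈ H, vec ρ₀ g (I.Φ (x, y)) = I.Φ (x, y)) : x ∈ fixd ρ {σ | up σ ∈ H} := by
  rw [mem_fixd]
  intro σ hσ
  obtain ⟨B, hB⟩ := I.dg σ
  have e := h (up σ) hσ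
  rw [hB] at e
  exact congrArg Prod.fst (I.Φ.injective e)

theorem IndD.rank_two (I : IndD ρ ρ₀ up) (H : Subgroup (Gal F₀)) {t : Gal F₀} (ht : t ∈ H)
    (htr : t ∉ up.range) :
    Module.finrank K (fixd ρ₀ (H : Set (Gal F₀))) =
      Module.finrank K (fixd ρ {σ | up σ ∈ H}) := by
  obtain ⟨A, B, hAB⟩ := I.ag t htr
  have hA0 : A 0 = 0 := by
    have e := hAB 0 0
    rw [Prod.mk_zero_zero, map_zero, vec_zero, ← map_zero I.Φ] at e
    exact (congrArg Prod.fst (I.Φ.injective e)).symm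
  have hfix : ∀ x ∈ fixd ρ {σ | up σ ∈ H}, ∀ h ∈ H,
      vec ρ₀ h (I.Φ (x, 0) + vec ρ₀ t (I.Φ (x, 0))) = I.Φ (x, 0) + vec ρ₀ t (I.Φ (x, 0)) := by
    intro x hx h hh
    rw [vec_add]
    by_cases hr : h ∈ up.range
    · have h1 : vec ρ₀ h (vec ρ₀ t (I.Φ (x, 0))) = vec ρ₀ t (I.Φ (x, 0)) := by
        have e : h * t = t * (t⁻¹ * h * t) := by group
        rw [← vec_mul, e, vec_mul, I.fix0 H hx (H.mul_mem (H.mul_mem (H.inv_mem ht) hh) ht)]
        rw [show t⁻¹ * h * t = t⁻¹ * (h * t) by group]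
        refine I.two _ _ (fun hc => htr ?_) (fun hc => htr ?_)
        · simpa using up.range.inv_mem hc
        · have := up.range.mul_mem (up.range.inv_mem hr) hc
          simpa using this
      rw [h1, I.fix0 H hx hh hr]
    · have h1 : vec ρ₀ h (I.Φ (x, 0)) = vec ρ₀ t (I.Φ (x, 0)) := by
        have e : h = t * (t⁻¹ * h) := by group
        conv_lhs => rw [e]
        rw [vec_mul, I.fix0 H hx (H.mul_mem (H.inv_mem ht) hh)]
        exact I.two _ _ (fun hc => htr (by simpa using up.range.inv_mem hc)) hr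
      have h2 : vec ρ₀ h (vec ρ₀ t (I.Φ (x, 0))) = I.Φ (x, 0) := by
        rw [← vec_mul, I.fix0 H hx (H.mul_mem hh ht) (I.two _ _ hr htr)]
      rw [h1, h2, add_comm]
  let f : fixd ρ {σ | up σ ∈ H} →ₗ[K] fixd ρ₀ (H : Set (Gal F₀)) :=
    { toFun := fun x => ⟨I.Φ (x.1, 0) + vec ρ₀ t (I.Φ (x.1, 0)), hfix x.1 x.2⟩
      map_add' := by
        intro x y
        apply Subtype.ext
        have e : I.Φ ((x + y : fixd ρ {σ | up σ ∈ H}).1, 0) = I.Φ (x.1, 0) + I.Φ (y.1, 0) := by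
          rw [← map_add, Prod.mk_add_mk, add_zero]
          rfl
        change I.Φ ((x + y : fixd ρ {σ | up σ ∈ H}).1, 0) +
          vec ρ₀ t (I.Φ ((x + y : fixd ρ {σ | up σ ∈ H}).1, 0)) =
          (I.Φ (x.1, 0) + vec ρ₀ t (I.Φ (x.1, 0))) + (I.Φ (y.1, 0) + vec ρ₀ t (I.Φ (y.1, 0)))
        rw [e, vec_add]
        abel
      map_smul' := by
        intro a x
        apply Subtype.ext
        have e : I.Φ ((a • x : fixd ρ {σ | up σ ∈ H}).1, 0) = a • I.Φ (x.1, 0) := by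
          rw [← map_smul, Prod.smul_mk, smul_zero]
          rfl
        change I.Φ ((a • x : fixd ρ {σ | up σ ∈ H}).1, 0) +
          vec ρ₀ t (I.Φ ((a • x : fixd ρ {σ | up σ ∈ H}).1, 0)) =
          a • (I.Φ (x.1, 0) + vec ρ₀ t (I.Φ (x.1, 0)))
        rw [e, vec_smul, smul_add] }
  have hval : ∀ x, ((f x : fixd ρ₀ (H : Set (Gal F₀))) : Fin (2 * n) → K) =
      I.Φ (x.1, B x.1) := by
    intro x
    change I.Φ (x.1, 0) + vec ρ₀ t (I.Φ (x.1, 0)) = _
    rw [hAB, hA0, ← map_add, Prod.mk_add_mk, add_zero, zero_add]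
  have hbij : Function.Bijective f := by
    constructor
    · intro x y hxy
      have e : I.Φ (x.1, B x.1) = I.Φ (y.1, B y.1) := by
        rw [← hval, ← hval, hxy]
      exact Subtype.ext (congrArg Prod.fst (I.Φ.injective e))
    · rintro ⟨w, hw⟩
      obtain ⟨⟨x, y⟩, rfl⟩ := I.Φ.surjective w
      have hw' : ∀ g ∈ H, vec ρ₀ g (I.Φ (x, y)) = I.Φ (x, y) := hw
      refine ⟨⟨x, I.fst_mem H hw'⟩, Subtype.ext ?_⟩
      rw [hval]
      have e := hw' t ht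
      rw [hAB] at e
      have e2 : B x = y := congrArg Prod.snd (I.Φ.injective e)
      change I.Φ (x, B x) = I.Φ (x, y)
      rw [e2]
  exact (LinearEquiv.ofBijective f hbij).finrank_eq.symm

theorem IndD.rank_one (I : IndD ρ ρ₀ up) (H : Subgroup (Gal F₀)) (hH : H ≤ up.range)
    {s : Gal F₀} (hs : s ∉ up.range) (h1 : ∀ h ∈ H, s * h * s⁻¹ ∈ H)
    (h2 : ∀ h ∈ H, s⁻¹ * h * s ∈ H) :
    Module.finrank K (fixd ρ₀ (H : Set (Gal F₀))) =
      2 * Module.finrank K (fixd ρ {σ | up σ ∈ H}) := by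
  have hs' : s⁻¹ ∉ up.range := fun hc => hs (by simpa using up.range.inv_mem hc)
  obtain ⟨A, B, hAB⟩ := I.ag s hs
  obtain ⟨A', B', hAB'⟩ := I.ag s⁻¹ hs'
  have hA0 : A 0 = 0 := by
    have e := hAB 0 0
    rw [Prod.mk_zero_zero, map_zero, vec_zero, ← map_zero I.Φ] at e
    exact (congrArg Prod.fst (I.Φ.injective e)).symm
  have hB0' : B' 0 = 0 := by
    have e := hAB' 0 0
    rw [Prod.mk_zero_zero, map_zero, vec_zero, ← map_zero I.Φ] at e
    exact (congrArg Prod.snd (I.Φ.injective e)).symm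
  have hfix : ∀ x ∈ fixd ρ {σ | up σ ∈ H}, ∀ y ∈ fixd ρ {σ | up σ ∈ H}, ∀ h ∈ H,
      vec ρ₀ h (I.Φ (x, 0) + vec ρ₀ s (I.Φ (y, 0))) = I.Φ (x, 0) + vec ρ₀ s (I.Φ (y, 0)) := by
    intro x hx y hy h hh
    have e1 : vec ρ₀ h (vec ρ₀ s (I.Φ (y, 0))) = vec ρ₀ s (I.Φ (y, 0)) := by
      have e : h * s = s * (s⁻¹ * h * s) := by group
      rw [← vec_mul, e, vec_mul, I.fix0 H hy (h2 h hh) (hH (h2 h hh))]
    rw [vec_add, e1, I.fix0 H hx hh (hH hh)]
  let f : (fixd ρ {σ | up σ ∈ H} × fixd ρ {σ | up σ ∈ H}) →ₗ[K] fixd ρ₀ (H : Set (Gal F₀)) :=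
    { toFun := fun x => ⟨I.Φ (x.1.1, 0) + vec ρ₀ s (I.Φ (x.2.1, 0)),
        hfix x.1.1 x.1.2 x.2.1 x.2.2⟩
      map_add' := by
        intro x y
        apply Subtype.ext
        have e : ∀ a b : Fin n → K, I.Φ (a + b, 0) = I.Φ (a, 0) + I.Φ (b, 0) := by
          intro a b
          rw [← map_add, Prod.mk_add_mk, add_zero]
        change I.Φ (x.1.1 + y.1.1, 0) + vec ρ₀ s (I.Φ (x.2.1 + y.2.1, 0)) =
          (I.Φ (x.1.1, 0) + vec ρ₀ s (I.Φ (x.2.1, 0))) +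
            (I.Φ (y.1.1, 0) + vec ρ₀ s (I.Φ (y.2.1, 0)))
        rw [e, e, vec_add]
        abel
      map_smul' := by
        intro a x
        apply Subtype.ext
        have e : ∀ b : Fin n → K, I.Φ (a • b, 0) = a • I.Φ (b, 0) := by
          intro b
          rw [← map_smul, Prod.smul_mk, smul_zero]
        change I.Φ (a • x.1.1, 0) + vec ρ₀ s (I.Φ (a • x.2.1, 0)) =
          a • (I.Φ (x.1.1, 0) + vec ρ₀ s (I.Φ (x.2.1, 0)))
        rw [e, e, vec_smul, smul_add] }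
  have hval : ∀ x, ((f x : fixd ρ₀ (H : Set (Gal F₀))) : Fin (2 * n) → K) =
      I.Φ (x.1.1, B x.2.1) := by
    intro x
    change I.Φ (x.1.1, 0) + vec ρ₀ s (I.Φ (x.2.1, 0)) = _
    rw [hAB, hA0, ← map_add, Prod.mk_add_mk, add_zero, zero_add]
  have hbij : Function.Bijective f := by
    constructor
    · intro x y hxy
      have e : I.Φ (x.1.1, B x.2.1) = I.Φ (y.1.1, B y.2.1) := by
        rw [← hval, ← hval, hxy]
      have e1 : x.1.1 = y.1.1 := congrArg Prod.fst (I.Φ.injective e)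
      have e2 : B x.2.1 = B y.2.1 := congrArg Prod.snd (I.Φ.injective e)
      have e3 : x.2.1 = y.2.1 := by
        have h3 : ∀ z : Fin n → K, vec ρ₀ s⁻¹ (I.Φ (0, B z)) = I.Φ (z, 0) := by
          intro z
          have : I.Φ (0, B z) = vec ρ₀ s (I.Φ (z, 0)) := by rw [hAB, hA0]
          rw [this, ← vec_mul, inv_mul_cancel, vec_one]
        have h4 : I.Φ (x.2.1, 0) = I.Φ (y.2.1, 0) := by rw [← h3, ← h3, e2]
        exact congrArg Prod.fst (I.Φ.injective h4)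
      exact Prod.ext (Subtype.ext e1) (Subtype.ext e3)
    · rintro ⟨w, hw⟩
      obtain ⟨⟨x, y⟩, rfl⟩ := I.Φ.surjective w
      have hw' : ∀ g ∈ H, vec ρ₀ g (I.Φ (x, y)) = I.Φ (x, y) := hw
      have hx := I.fst_mem H hw'
      have hy : ∀ g ∈ H, vec ρ₀ g (I.Φ (0, y)) = I.Φ (0, y) := by
        intro g hg
        have e : I.Φ (x, y) = I.Φ (x, 0) + I.Φ (0, y) := by
          rw [← map_add, Prod.mk_add_mk, add_zero, zero_add]
        have e1 := hw' g hg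
        rw [e, vec_add, I.fix0 H hx hg (hH hg)] at e1
        exact add_left_cancel e1
      have hz : vec ρ₀ s⁻¹ (I.Φ (0, y)) = I.Φ (A' y, 0) := by rw [hAB', hB0']
      have hz' : A' y ∈ fixd ρ {σ | up σ ∈ H} := by
        refine I.fst_mem H (y := 0) ?_
        intro g hg
        rw [← hz, ← vec_mul]
        have e : g * s⁻¹ = s⁻¹ * (s * g * s⁻¹) := by group
        rw [e, vec_mul, hy _ (h1 g hg)]
      refine ⟨(⟨x, hx⟩, ⟨A' y, hz'⟩), Subtype.ext ?_⟩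
      rw [hval]
      have e5 : vec ρ₀ s (I.Φ (A' y, 0)) = I.Φ (0, y) := by
        rw [← hz, ← vec_mul, mul_inv_cancel, vec_one]
      rw [hAB, hA0] at e5
      have e6 : B (A' y) = y := congrArg Prod.snd (I.Φ.injective e5)
      change I.Φ (x, B (A' y)) = I.Φ (x, y)
      rw [e6]
  rw [← (LinearEquiv.ofBijective f hbij).finrank_eq, Module.finrank_prod]
  ring

end

end PQCIC
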