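import Pool.Agent.Helper62.PQ.CIC1

/-!
# PQ row CIC, part 2: the quadratic extension, the induced representation, the quadratic character
-/

set_option autoImplicit false
set_option linter.unusedSectionVars false

open NumberField
open scoped Classical

namespace PQCIC

open BKA PQ

section

variable {F F₀ : Type} [Field F] [NumberField F] [Field F₀] [NumberField F₀] [Algebra F₀ F]

/-- the data of the quadratic extension -/
structure QD (F F₀ : Type) [Field F] [NumberField F] [Field F₀] [NumberField F₀]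
    [Algebra F₀ F] (δ : F₀) where
  c : F ≃ₐ[ℚ] F
  y : F
  θ : AlgebraicClosure F ≃+* AlgebraicClosure F₀
  fr : Module.finrank F₀ F = 2
  hδ : δ ≠ 0
  hy : y ^ 2 = algebraMap F₀ F δ
  cy : c y = -y
  hc : ∀ x : F₀, c (algebraMap F₀ F x) = algebraMap F₀ F x
  hθ : ∀ x : F₀, θ (algebraMap F (AlgebraicClosure F) (algebraMap F₀ F x)) =
      algebraMap F₀ (AlgebraicClosure F₀) x

variable {δ : F₀} (Q : QD F F₀ δ)

theorem QD.y_ne : Q.y ≠ 0 := by
  intro h
  have := Q.hy
  rw [h] at this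
  have h2 : algebraMap F₀ F δ = 0 := by rw [← this]; ring
  exact Q.hδ ((map_eq_zero_iff _ (algebraMap F₀ F).injective).1 h2)

theorem QD.span (x : F) : ∃ a b : F₀, x = algebraMap F₀ F a + algebraMap F₀ F b * Q.y := by
  have hli : LinearIndependent F₀ ![(1 : F), Q.y] := by
    rw [LinearIndependent.pair_iff]
    intro s t h
    rw [Algebra.smul_def, Algebra.smul_def, mul_one] at h
    have h' := congrArg Q.c h
    rw [map_add, map_mul, Q.hc, Q.hc, Q.cy, map_zero] at h'
    have h1 : (2 : F) * algebraMap F₀ F s = 0 := by linear_combination h + h'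
    have h2 : algebraMap F₀ F s = 0 := by
      rcases mul_eq_zero.1 h1 with h3 | h3
      · exact absurd h3 two_ne_zero
      · exact h3
    have h4 : algebraMap F₀ F t * Q.y = 0 := by rw [h2, zero_add] at h; exact h
    refine ⟨(map_eq_zero_iff _ (algebraMap F₀ F).injective).1 h2, ?_⟩
    rcases mul_eq_zero.1 h4 with h5 | h5
    · exact (map_eq_zero_iff _ (algebraMap F₀ F).injective).1 h5
    · exact absurd h5 Q.y_ne
  have hfd : FiniteDimensional F₀ F := FiniteDimensional.of_finrank_pos (by rw [Q.fr]; norm_num)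
  have hspan := hli.span_eq_top_of_card_eq_finrank (by rw [Q.fr, Fintype.card_fin])
  have hx : x ∈ Submodule.span F₀ (Set.range ![(1 : F), Q.y]) := by rw [hspan]; trivial
  rw [Matrix.range_cons_cons_empty, Submodule.mem_span_pair] at hx
  obtain ⟨a, b, hab⟩ := hx
  refine ⟨a, b, ?_⟩
  rw [← hab, Algebra.smul_def, Algebra.smul_def, mul_one]

/-- the image of `y` -/
noncomputable def QD.z : AlgebraicClosure F₀ := Q.θ (algebraMap F (AlgebraicClosure F) Q.y)

theorem QD.z_sq : Q.z ^ 2 = algebraMap F₀ (AlgebraicClosure F₀) δ := by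
  rw [QD.z, ← map_pow, ← map_pow, Q.hy, Q.hθ]

theorem QD.z_ne : Q.z ≠ 0 := by
  intro h
  have := Q.z_sq
  rw [h] at this
  have h2 : algebraMap F₀ (AlgebraicClosure F₀) δ = 0 := by rw [← this]; ring
  exact Q.hδ ((map_eq_zero_iff _ (algebraMap F₀ (AlgebraicClosure F₀)).injective).1 h2)

theorem QD.z_pm (g : Gal F₀) : g Q.z = Q.z ∨ g Q.z = -Q.z := by
  have h : (g Q.z) ^ 2 = Q.z ^ 2 := by
    rw [← map_pow, Q.z_sq, AlgEquiv.commutes]
  exact sq_eq_sq_iff_eq_or_eq_neg.1 h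

theorem QD.theta_sub (x : F) : ∃ a b : F₀, Q.θ (algebraMap F (AlgebraicClosure F) x) =
    algebraMap F₀ (AlgebraicClosure F₀) a + algebraMap F₀ (AlgebraicClosure F₀) b * Q.z := by
  obtain ⟨a, b, h⟩ := Q.span x
  refine ⟨a, b, ?_⟩
  rw [h, map_add, map_mul, map_add, map_mul, Q.hθ, Q.hθ]
  rfl

theorem QD.fix_theta {g : Gal F₀} (hg : g Q.z = Q.z) (x : F) :
    g (Q.θ (algebraMap F (AlgebraicClosure F) x)) = Q.θ (algebraMap F (AlgebraicClosure F) x) := by
  obtain ⟨a, b, h⟩ := Q.theta_sub x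
  rw [h, map_add, map_mul, AlgEquiv.commutes, AlgEquiv.commutes, hg]

theorem QD.neg_theta {g : Gal F₀} (hg : g Q.z = -Q.z) (x : F) :
    g (Q.θ (algebraMap F (AlgebraicClosure F) x)) =
      Q.θ (algebraMap F (AlgebraicClosure F) (Q.c x)) := by
  obtain ⟨a, b, h⟩ := Q.span x
  rw [h]
  simp only [map_add, map_mul, Q.hθ, Q.hc, Q.cy, map_neg, AlgEquiv.commutes]
  have : g (Q.θ (algebraMap F (AlgebraicClosure F) Q.y)) =
    -Q.θ (algebraMap F (AlgebraicClosure F) Q.y) := hg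
  rw [this]

/-- the embedding of the Galois groups -/
noncomputable def QD.up : Gal F →* Gal F₀ where
  toFun σ := AlgEquiv.ofRingEquiv (f := (Q.θ.symm.trans σ.toRingEquiv).trans Q.θ) (by
    intro r
    have h1 : Q.θ.symm (algebraMap F₀ (AlgebraicClosure F₀) r) =
        algebraMap F (AlgebraicClosure F) (algebraMap F₀ F r) := by
      rw [← Q.hθ, RingEquiv.symm_apply_apply]
    have h2 : σ (algebraMap F (AlgebraicClosure F) (algebraMap F₀ F r)) =
      algebraMap F (AlgebraicClosure F) (algebraMap F₀ F r) := σ.commutes _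
    change Q.θ (σ (Q.θ.symm (algebraMap F₀ (AlgebraicClosure F₀) r))) = _
    rw [h1, h2, Q.hθ])
  map_one' := by
    ext x
    change Q.θ (Q.θ.symm x) = x
    exact Q.θ.apply_symm_apply x
  map_mul' σ τ := by
    ext x
    change Q.θ (σ (τ (Q.θ.symm x))) = Q.θ (σ (Q.θ.symm (Q.θ (τ (Q.θ.symm x)))))
    rw [RingEquiv.symm_apply_apply]

theorem QD.up_apply (σ : Gal F) (x : AlgebraicClosure F) : Q.up σ (Q.θ x) = Q.θ (σ x) := by
  change Q.θ (σ (Q.θ.symm (Q.θ x))) = _
  rw [RingEquiv.symm_apply_apply]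

theorem QD.up_apply' (σ : Gal F) (x : AlgebraicClosure F₀) :
    Q.up σ x = Q.θ (σ (Q.θ.symm x)) := rfl

/-- an automorphism of the closure that fixes `F`, from an automorphism of `F` -/
theorem QD.down {f : AlgebraicClosure F ≃+* AlgebraicClosure F}
    (hf : ∀ x : F, f (algebraMap F (AlgebraicClosure F) x) = algebraMap F (AlgebraicClosure F) x) :
    ∃ σ : Gal F, ∀ x, σ x = f x :=
  ⟨AlgEquiv.ofRingEquiv (f := f) hf, fun _ => rfl⟩

theorem QD.mem_range (g : Gal F₀) : g ∈ Q.up.range ↔ g Q.z = Q.z := by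
  constructor
  · rintro ⟨σ, rfl⟩
    rw [QD.z, Q.up_apply, AlgEquiv.commutes]
  · intro hg
    obtain ⟨σ, hσ⟩ := QD.down (f := (Q.θ.trans g.toRingEquiv).trans Q.θ.symm) (by
      intro x
      change Q.θ.symm (g (Q.θ (algebraMap F (AlgebraicClosure F) x))) = _
      rw [Q.fix_theta hg, RingEquiv.symm_apply_apply])
    refine ⟨σ, ?_⟩
    ext x
    rw [Q.up_apply', hσ]
    change Q.θ (Q.θ.symm (g (Q.θ (Q.θ.symm x)))) = g x
    rw [RingEquiv.apply_symm_apply, RingEquiv.apply_symm_apply]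

theorem QD.not_mem (g : Gal F₀) : g ∉ Q.up.range ↔ g Q.z = -Q.z := by
  rw [Q.mem_range]
  constructor
  · intro h
    exact (Q.z_pm g).resolve_left h
  · intro h h'
    rw [h'] at h
    have : (2 : AlgebraicClosure F₀) * Q.z = 0 := by linear_combination h
    rcases mul_eq_zero.1 this with h1 | h1
    · exact two_ne_zero h1
    · exact Q.z_ne h1

theorem QD.two (g h : Gal F₀) (hg : g ∉ Q.up.range) (hh : h ∉ Q.up.range) :
    g * h ∈ Q.up.range := by
  rw [Q.not_mem] at hg hh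
  rw [Q.mem_range, AlgEquiv.mul_apply, hh, map_neg, hg, neg_neg]

end

section

variable {F F₀ : Type} [Field F] [NumberField F] [Field F₀] [NumberField F₀] [Algebra F₀ F]
  {K : Type} [Field K] {n : ℕ} {δ : F₀}

theorem QD.exists_ind {c : F ≃ₐ[ℚ] F} {y : F} (hfr : Module.finrank F₀ F = 2) (hδ : δ ≠ 0)
    (hy : y ^ 2 = algebraMap F₀ F δ) (hcy : c y = -y)
    (hc : ∀ x : F₀, c (algebraMap F₀ F x) = algebraMap F₀ F x)
    {ρ : Gal F →* Matrix.GeneralLinearGroup (Fin n) K}
    {ρ₀ : Gal F₀ →* Matrix.GeneralLinearGroup (Fin (2 * n)) K} (hI : IndOf ρ ρ₀) :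
    ∃ Q : QD F F₀ δ, Q.c = c ∧ Nonempty (IndD ρ ρ₀ Q.up) := by
  obtain ⟨θ, s, e, hθ, hs, ⟨x₀, hx₀⟩, hd, ha⟩ := hI
  refine ⟨⟨c, y, θ, hfr, hδ, hy, hcy, hc, hθ⟩, rfl, ?_⟩
  set Q : QD F F₀ δ := ⟨c, y, θ, hfr, hδ, hy, hcy, hc, hθ⟩ with hQ
  have hsy : s (algebraMap F (AlgebraicClosure F) y) = -algebraMap F (AlgebraicClosure F) y := by
    have h1 : (s (algebraMap F (AlgebraicClosure F) y)) ^ 2 =
        (algebraMap F (AlgebraicClosure F) y) ^ 2 := by
      rw [← map_pow, ← map_pow, hy, hs]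
    rcases sq_eq_sq_iff_eq_or_eq_neg.1 h1 with h2 | h2
    · exfalso
      apply hx₀
      obtain ⟨a, b, hab⟩ := Q.span x₀
      have hab' : x₀ = algebraMap F₀ F a + algebraMap F₀ F b * y := hab
      rw [hab', map_add, map_mul, map_add, map_mul, hs, hs, h2]
    · exact h2
  have hsF : ∀ x : F, s (algebraMap F (AlgebraicClosure F) x) =
      algebraMap F (AlgebraicClosure F) (c x) := by
    intro x
    obtain ⟨a, b, hab⟩ := Q.span x
    have hab' : x = algebraMap F₀ F a + algebraMap F₀ F b * y := hab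
    rw [hab']
    simp only [map_add, map_mul, hs, hsy, hc, hcy, map_neg]
  have hcc : ∀ x : F, c (c x) = x := by
    intro x
    obtain ⟨a, b, hab⟩ := Q.span x
    have hab' : x = algebraMap F₀ F a + algebraMap F₀ F b * y := hab
    rw [hab']
    simp only [map_add, map_mul, hc, hcy, map_neg, neg_neg]
  obtain ⟨τ₂, hτ₂⟩ := QD.down (f := s.trans s) (by
    intro x
    change s (s _) = _
    rw [hsF, hsF, hcc])
  let Φ : ((Fin n → K) × (Fin n → K)) ≃ₗ[K] (Fin (2 * n) → K) :=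
    (LinearEquiv.sumArrowLequivProdArrow (Fin n) (Fin n) K K).symm.trans
      (LinearEquiv.funCongrLeft K K e.symm)
  have hΦ : ∀ x y : Fin n → K, Φ (x, y) = Sum.elim x y ∘ e.symm := fun _ _ => rfl
  have hmul : ∀ (A B C D : Matrix (Fin n) (Fin n) K) (x y : Fin n → K),
      (Matrix.reindex e e (Matrix.fromBlocks A B C D)).mulVec (Φ (x, y)) =
        Φ (A.mulVec x + B.mulVec y, C.mulVec x + D.mulVec y) := by
    intro A B C D x y
    rw [hΦ, hΦ, Matrix.reindex_apply, Matrix.submatrix_mulVec_equiv]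
    congr 1
    have : (Sum.elim x y ∘ e.symm) ∘ e.symm.symm = Sum.elim x y := by
      funext j
      simp
    rw [this, Matrix.fromBlocks_mulVec]
    rfl
  have hdg : ∀ σ : Gal F, ∃ τ : Gal F, ∀ x y, vec ρ₀ (Q.up σ) (Φ (x, y)) =
      Φ (vec ρ σ x, vec ρ τ y) := by
    intro σ
    obtain ⟨τ, hτ⟩ := QD.down (f := (s.trans σ.toRingEquiv).trans s.symm) (by
      intro x
      change s.symm (σ (s (algebraMap F (AlgebraicClosure F) x))) = _
      rw [hsF, AlgEquiv.commutes, ← hsF, RingEquiv.symm_apply_apply])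
    refine ⟨τ, ?_⟩
    intro x y
    have h1 := hd (Q.up σ) σ τ (fun z => Q.up_apply σ z) (fun z => by
      rw [hτ]
      change σ (s z) = s (s.symm (σ (s z)))
      rw [RingEquiv.apply_symm_apply])
    unfold vec
    rw [h1, hmul]
    simp
  refine ⟨⟨Φ, fun σ => ?_, fun t ht => ?_, Q.two⟩⟩
  · obtain ⟨τ, hτ⟩ := hdg σ
    exact ⟨vec ρ τ, hτ⟩
  · have hg₀ : ∃ g₀ : Gal F₀, ∀ z, g₀ (θ z) = θ (s z) := by
      refine ⟨AlgEquiv.ofRingEquiv (f := (θ.symm.trans s).trans θ) ?_, ?_⟩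
      · intro r
        change θ (s (θ.symm (algebraMap F₀ (AlgebraicClosure F₀) r))) = _
        have h1 : θ.symm (algebraMap F₀ (AlgebraicClosure F₀) r) =
            algebraMap F (AlgebraicClosure F) (algebraMap F₀ F r) := by
          rw [← hθ, RingEquiv.symm_apply_apply]
        rw [h1, hs, hθ]
      · intro z
        change θ (s (θ.symm (θ z))) = _
        rw [RingEquiv.symm_apply_apply]
    obtain ⟨g₀, hg₀⟩ := hg₀
    have hg₀z : g₀ Q.z = -Q.z := by
      change g₀ (θ (algebraMap F (AlgebraicClosure F) y)) = -θ (algebraMap F (AlgebraicClosure F) y)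
      rw [hg₀, hsy, map_neg]
    have hg₀r : g₀ ∉ Q.up.range := (Q.not_mem g₀).2 hg₀z
    have hg₀i : g₀⁻¹ ∉ Q.up.range := fun hc => hg₀r (by simpa using Q.up.range.inv_mem hc)
    obtain ⟨σ, hσ⟩ := Q.two t g₀⁻¹ ht hg₀i
    have ht2 : t = Q.up σ * g₀ := by rw [hσ]; group
    obtain ⟨τ, hτ⟩ := hdg σ
    have hv : ∀ x y, vec ρ₀ g₀ (Φ (x, y)) = Φ (vec ρ τ₂ y, x) := by
      intro x y
      have h1 := ha g₀ τ₂ hg₀ hτ₂
      unfold vec
      rw [h1, hmul]
      simp
    refine ⟨fun y => vec ρ σ (vec ρ τ₂ y), fun x => vec ρ τ x, ?_⟩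
    intro x y
    rw [ht2, vec_mul, hv, hτ]

/-- the invariants of the quadratic character -/
theorem kappa_one (Q : QD F F₀ δ) (ℓ : ℕ) [Fact ℓ.Prime] [Algebra ℚ_[ℓ] K] [TopologicalSpace K]
    (R₁ : Orth F₀ 1 0 δ ℓ K) (S : Set (Gal F₀)) (hS : ∀ g ∈ S, g ∈ Q.up.range) :
    Module.finrank K (fixd R₁.ρ S) = 1 := by
  have h : fixd R₁.ρ S = ⊤ := by
    rw [eq_top_iff]
    intro x _
    rw [mem_fixd]
    intro g hg
    have h1 := (Q.mem_range g).1 (hS g hg)
    have h2 : ((R₁.ρ g : Matrix.GeneralLinearGroup (Fin 1) K) :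
        Matrix (Fin 1) (Fin 1) K).det = 1 := by
      rcases R₁.det g Q.z Q.z_sq with ⟨-, h3⟩ | ⟨h3, -⟩
      · rw [h3]
        simp
      · exact absurd (hS g hg) ((Q.not_mem g).2 h3)
    have h3 : ((R₁.ρ g : Matrix.GeneralLinearGroup (Fin 1) K) :
        Matrix (Fin 1) (Fin 1) K) = 1 := by
      ext i j
      rw [Matrix.det_fin_one] at h2
      rw [Subsingleton.elim i 0, Subsingleton.elim j 0, h2]
      rfl
    unfold vec
    rw [h3, Matrix.one_mulVec]
  rw [h, finrank_top]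
  simp

theorem kappa_zero (Q : QD F F₀ δ) (ℓ : ℕ) [Fact ℓ.Prime] [Algebra ℚ_[ℓ] K] [TopologicalSpace K]
    (R₁ : Orth F₀ 1 0 δ ℓ K) (S : Set (Gal F₀)) {t : Gal F₀} (ht : t ∈ S)
    (htr : t ∉ Q.up.range) :
    Module.finrank K (fixd R₁.ρ S) = 0 := by
  have hchar : CharZero K := charZero_of_injective_algebraMap (algebraMap ℚ_[ℓ] K).injective
  have h : fixd R₁.ρ S = ⊥ := by
    rw [eq_bot_iff]
    intro x hx
    rw [mem_fixd] at hx
    have h1 := (Q.not_mem t).1 htr
    have h2 : ((R₁.ρ t : Matrix.GeneralLinearGroup (Fin 1) K) :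
        Matrix (Fin 1) (Fin 1) K).det = -1 := by
      rcases R₁.det t Q.z Q.z_sq with ⟨h3, -⟩ | ⟨-, h3⟩
      · exact absurd ((Q.mem_range t).2 h3) htr
      · rw [h3]
        simp
    have h3 : ((R₁.ρ t : Matrix.GeneralLinearGroup (Fin 1) K) :
        Matrix (Fin 1) (Fin 1) K) = -1 := by
      ext i j
      rw [Matrix.det_fin_one] at h2
      rw [Subsingleton.elim i 0, Subsingleton.elim j 0, h2]
      simp
    have h4 := hx t ht
    unfold vec at h4
    rw [h3, Matrix.neg_mulVec, Matrix.one_mulVec] at h4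
    have h5 : x = 0 := by
      funext i
      have := congrFun h4 i
      simp only [Pi.neg_apply] at this
      have h6 : (2 : K) * x i = 0 := by linear_combination -this
      rcases mul_eq_zero.1 h6 with h7 | h7
      · exact absurd h7 two_ne_zero
      · exact h7
    rw [h5]
    exact Submodule.zero_mem _
  rw [h, finrank_bot]

end

end PQCIC
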