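import Pool.Agent.Helper62.PQ.CIC2

/-!
# PQ row CIC, part 3: ramification groups
-/

set_option autoImplicit false
set_option linter.unusedSectionVars false

open NumberField
open scoped Classical

namespace PQCIC

open BKA PQ PQ30 Pool.Agent.Helper13.Swan

section

variable {F : Type} [Field F] [NumberField F]

/-- the ramification groups of `L / F`, as subgroups -/
def RGs (L : IntermediateField F (AlgebraicClosure F)) (𝔓 : Ideal (Zb F)) (i : ℕ) :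
    Subgroup (L ≃ₐ[F] L) where
  carrier := {g | ∀ x y : 𝓞 L, (y : L) = g (x : L) → y - x ∈ under L 𝔓 ^ (i + 1)}
  one_mem' := by
    intro x y h
    have : y = x := RingOfIntegers.ext h
    rw [this, sub_self]
    exact Ideal.zero_mem _
  mul_mem' := by
    intro g h hg hh x y hxy
    obtain ⟨z, hz⟩ : ∃ z : 𝓞 L, (z : L) = h (x : L) :=
      ⟨⟨h (x : L), x.isIntegral_coe.map (h : L →+* L).toIntAlgHom⟩, rfl⟩
    have h1 := hh x z hz
    have h2 := hg z y (by rw [hxy, hz]; rfl)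
    have h3 : y - x = (y - z) + (z - x) := by ring
    rw [h3]
    exact Ideal.add_mem _ h2 h1
  inv_mem' := by
    intro g hg x y hxy
    have h1 : (x : L) = g (y : L) := by
      rw [hxy]
      exact (AlgEquiv.apply_symm_apply g (x : L)).symm
    have h2 := hg y x h1
    have h3 : y - x = -(x - y) := by ring
    rw [h3]
    exact (Ideal.neg_mem_iff _).2 h2

theorem ramCard_eq (L : IntermediateField F (AlgebraicClosure F)) (𝔓 : Ideal (Zb F)) (i : ℕ) :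
    ramCard L 𝔓 i = Nat.card (RGs L 𝔓 i) := rfl

theorem mem_RGs (L : IntermediateField F (AlgebraicClosure F)) (𝔓 : Ideal (Zb F)) (i : ℕ)
    (g : L ≃ₐ[F] L) : g ∈ RGs L 𝔓 i ↔
      ∀ x y : 𝓞 L, (y : L) = g (x : L) → y - x ∈ under L 𝔓 ^ (i + 1) := Iff.rfl

theorem on_inv {L : IntermediateField F (AlgebraicClosure F)} {σ : Gal F} {g : L ≃ₐ[F] L}
    (h : On L σ g) : On L σ⁻¹ g⁻¹ := by
  intro x
  have h1 : σ ((g⁻¹ x : L) : AlgebraicClosure F) = (x : AlgebraicClosure F) := by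
    rw [h (g⁻¹ x)]
    have : g (g⁻¹ x) = x := AlgEquiv.apply_symm_apply g x
    rw [this]
  rw [← h1]
  exact AlgEquiv.symm_apply_apply σ _

theorem ram_gen (hG : PQ.ST_GRP) {v : Pl F} {𝔓 : Ideal (Zb F)} (hO : Over v 𝔓)
    (L : IntermediateField F (AlgebraicClosure F)) (M : LocM v 𝔓 L) (i : ℕ) (σ : Gal F)
    (g : Inr L 𝔓) (h : On L σ g) : Ram L 𝔓 i σ ↔ g ∈ Rk M.base i := by
  obtain ⟨-, -, -, -, -, -, -, h8⟩ := hG F v 𝔓 hO
  rw [h8 L i σ g h]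
  exact M.ram i g

theorem wild_iff (hF : PQ.ST_FIN) (hG : PQ.ST_GRP) (hT : PQ.ST_TAME) {v : Pl F} {𝔓 : Ideal (Zb F)}
    (hO : Over v 𝔓) {p : ℕ} (hp : p.Prime) (hpv : (p : 𝓞 F) ∈ v.asIdeal) (σ : Gal F) :
    Wild 𝔓 σ ↔ Congr 𝔓 1 σ ∧ ∀ x : AlgebraicClosure F, ∃ k : ℕ, (σ ^ p ^ k) x = x := by
  constructor
  · intro hw
    obtain ⟨-, -, h3, -, -, -, h7, -⟩ := hG F v 𝔓 hO
    refine ⟨h3 σ hw, fun x => ?_⟩
    let L : IntermediateField F (AlgebraicClosure F) :=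
      IntermediateField.normalClosure F (IntermediateField.adjoin F {x}) (AlgebraicClosure F)
    have hint : IsIntegral F x := Algebra.IsIntegral.isIntegral x
    have hfd0 : FiniteDimensional F (IntermediateField.adjoin F {x}) :=
      IntermediateField.adjoin.finiteDimensional hint
    have hfd : FiniteDimensional F L := normalClosure.is_finiteDimensional F _ _
    have hn : Normal F L := normalClosure.normal F _ _
    have hx : x ∈ L := IntermediateField.le_normalClosure _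
      (IntermediateField.mem_adjoin_simple_self F x)
    obtain ⟨g, hg, hOn⟩ := h7 L hn σ (h3 σ hw)
    obtain ⟨M⟩ := hF F v 𝔓 hO L hfd hn
    have hR := (ram_gen hG hO L M 1 σ ⟨g, hg⟩ hOn).1 (hw L hfd hn)
    obtain ⟨k, hk⟩ := (loc_iff hT hO hp hpv L M ⟨g, hg⟩).1 hR
    refine ⟨k, ?_⟩
    have h1 := on_pow hOn (p ^ k) ⟨x, hx⟩
    have h2 : g ^ p ^ k = 1 := congrArg Subtype.val hk
    rw [h2] at h1
    exact h1
  · rintro ⟨hc, hk⟩ L hfd hn
    obtain ⟨-, -, -, -, -, -, h7, -⟩ := hG F v 𝔓 hO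
    obtain ⟨g, hg, hOn⟩ := h7 L hn σ hc
    obtain ⟨M⟩ := hF F v 𝔓 hO L hfd hn
    refine (ram_gen hG hO L M 1 σ ⟨g, hg⟩ hOn).2 ((loc_iff hT hO hp hpv L M ⟨g, hg⟩).2 ?_)
    let b := Module.finBasis F L
    choose k hk' using fun i => hk ((b i : L) : AlgebraicClosure F)
    refine ⟨Finset.univ.sup k, Subtype.ext ?_⟩
    have h1 : ∀ i, (g ^ p ^ (Finset.univ.sup k)) (b i) = b i := by
      intro i
      have h2 : k i ≤ Finset.univ.sup k := Finset.le_sup (Finset.mem_univ i)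
      have h3 : (g ^ p ^ k i) (b i) = b i := by
        apply Subtype.ext
        rw [← on_pow hOn (p ^ k i) (b i)]
        exact hk' i
      have h4 : ∀ m : ℕ, ((g ^ p ^ k i) ^ m) (b i) = b i := by
        intro m
        induction m with
        | zero => simp
        | succ m ih => rw [pow_succ, AlgEquiv.mul_apply, h3, ih]
      have h5 : p ^ (Finset.univ.sup k) = p ^ k i * p ^ (Finset.univ.sup k - k i) := by
        rw [← pow_add]
        congr 1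
        omega
      rw [h5, pow_mul]
      exact h4 _
    have h6 : (g ^ p ^ (Finset.univ.sup k)) = 1 := by
      have h7 : (g ^ p ^ (Finset.univ.sup k)).toLinearMap = LinearMap.id := by
        refine b.ext fun i => ?_
        exact h1 i
      ext x
      exact congrArg (fun f : L →ₗ[F] L => ((f x : L) : AlgebraicClosure F)) h7
    exact h6

theorem ram_one (L : IntermediateField F (AlgebraicClosure F)) (𝔓 : Ideal (Zb F)) (i : ℕ) :
    Ram L 𝔓 i 1 := by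
  intro x y h
  have : y = x := RingOfIntegers.ext (Subtype.ext h)
  rw [this, sub_self]
  exact Ideal.zero_mem _

theorem exists_H (hF : PQ.ST_FIN) (hG : PQ.ST_GRP) {v : Pl F} {𝔓 : Ideal (Zb F)}
    (hO : Over v 𝔓) (L : IntermediateField F (AlgebraicClosure F)) (hfd : FiniteDimensional F L)
    (hn : Normal F L) (i : ℕ) : ∃ H : Subgroup (Gal F),
      (∀ σ, σ ∈ H ↔ Wild 𝔓 σ ∧ Ram L 𝔓 (i + 1) σ) ∧
      ∀ s, Congr 𝔓 1 s → ∀ h ∈ H, s * h * s⁻¹ ∈ H ∧ s⁻¹ * h * s ∈ H := by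
  obtain ⟨h1, h2, h3, h4, h5, h6, h7, -⟩ := hG F v 𝔓 hO
  obtain ⟨M⟩ := hF F v 𝔓 hO L hfd hn
  have hrn : (Rk M.base (i + 1)).Normal := by
    have : Fintype (Inr L 𝔓) := Fintype.ofFinite _
    exact Rk_normal M.base (i + 1)
  have key : ∀ σ : Gal F, Congr 𝔓 1 σ → ∃ g : Inr L 𝔓, On L σ (g : L ≃ₐ[F] L) ∧
      (Ram L 𝔓 (i + 1) σ ↔ g ∈ Rk M.base (i + 1)) := by
    intro σ hσ
    obtain ⟨g, hg, hOn⟩ := h7 L hn σ hσ
    exact ⟨⟨g, hg⟩, hOn, ram_gen hG hO L M (i + 1) σ ⟨g, hg⟩ hOn⟩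
  have conj : ∀ s, Congr 𝔓 1 s → ∀ h : Gal F, (Wild 𝔓 h ∧ Ram L 𝔓 (i + 1) h) →
      Wild 𝔓 (s * h * s⁻¹) ∧ Ram L 𝔓 (i + 1) (s * h * s⁻¹) := by
    rintro s hs h ⟨hw, hr⟩
    refine ⟨h6 h s hw hs, ?_⟩
    obtain ⟨g, hg, hgr⟩ := key h (h3 h hw)
    obtain ⟨γ, hγ, -⟩ := key s hs
    have hOn : On L (s * h * s⁻¹) ((γ * g * γ⁻¹ : Inr L 𝔓) : L ≃ₐ[F] L) := by
      have := on_mul (on_mul hγ hg) (on_inv hγ)
      exact this
    exact (ram_gen hG hO L M (i + 1) _ _ hOn).2 (hrn.conj_mem g (hgr.1 hr) γ)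
  let H : Subgroup (Gal F) :=
    { carrier := {σ | Wild 𝔓 σ ∧ Ram L 𝔓 (i + 1) σ}
      one_mem' := ⟨fun L _ _ => ram_one L 𝔓 1, ram_one L 𝔓 (i + 1)⟩
      mul_mem' := by
        rintro σ τ ⟨a1, a2⟩ ⟨b1, b2⟩
        refine ⟨h4 σ τ a1 b1, ?_⟩
        obtain ⟨g, hg, hgr⟩ := key σ (h3 σ a1)
        obtain ⟨γ, hγ, hγr⟩ := key τ (h3 τ b1)
        have hOn : On L (σ * τ) ((g * γ : Inr L 𝔓) : L ≃ₐ[F] L) := on_mul hg hγ
        exact (ram_gen hG hO L M (i + 1) _ _ hOn).2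
          ((Rk M.base (i + 1)).mul_mem (hgr.1 a2) (hγr.1 b2))
      inv_mem' := by
        rintro σ ⟨a1, a2⟩
        refine ⟨h5 σ a1, ?_⟩
        obtain ⟨g, hg, hgr⟩ := key σ (h3 σ a1)
        have hOn : On L σ⁻¹ ((g⁻¹ : Inr L 𝔓) : L ≃ₐ[F] L) := on_inv hg
        exact (ram_gen hG hO L M (i + 1) _ _ hOn).2
          ((Rk M.base (i + 1)).inv_mem (hgr.1 a2)) }
  refine ⟨H, fun σ => Iff.rfl, fun s hs h hh => ⟨conj s hs h hh, ?_⟩⟩
  have := conj s⁻¹ (h2 s hs) h hh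
  rw [inv_inv] at this
  exact this

theorem codim_zero (hF : PQ.ST_FIN) (hG : PQ.ST_GRP) {v : Pl F} {𝔓 : Ideal (Zb F)}
    (hO : Over v 𝔓) (L : IntermediateField F (AlgebraicClosure F)) (hfd : FiniteDimensional F L)
    (hn : Normal F L) {k : Type} [Field k] {m : ℕ}
    (ρ : Gal F →* Matrix.GeneralLinearGroup (Fin m) k)
    (hρ : ∀ σ : Gal F, Wild 𝔓 σ → (∀ x ∈ L, σ x = x) → ρ σ = 1) :
    ∃ N : ℕ, ∀ i, N ≤ i → codim ρ {σ | Wild 𝔓 σ ∧ Ram L 𝔓 (i + 1) σ} = 0 := by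
  obtain ⟨h1, h2, h3, h4, h5, h6, h7, -⟩ := hG F v 𝔓 hO
  obtain ⟨M⟩ := hF F v 𝔓 hO L hfd hn
  have hb : ∃ N : ℕ, Rk M.base N = ⊥ := by
    have : Fintype (Inr L 𝔓) := Fintype.ofFinite _
    exact M.base.exists_Rk_bot
  obtain ⟨N, hN⟩ := hb
  refine ⟨N, fun i hi => ?_⟩
  have h : fixd ρ {σ | Wild 𝔓 σ ∧ Ram L 𝔓 (i + 1) σ} = ⊤ := by
    rw [eq_top_iff]
    intro x _
    rw [mem_fixd]
    rintro σ ⟨hw, hr⟩
    obtain ⟨g, hg, hOn⟩ := h7 L hn σ (h3 σ hw)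
    have e1 := (ram_gen hG hO L M (i + 1) σ ⟨g, hg⟩ hOn).1 hr
    have e2 := Rk_antitone M.base (show N ≤ i + 1 by omega) e1
    rw [hN, Subgroup.mem_bot] at e2
    have e3 : g = 1 := congrArg Subtype.val e2
    have e4 : ρ σ = 1 := by
      refine hρ σ hw fun z hz => ?_
      have := hOn ⟨z, hz⟩
      rw [e3] at this
      exact this
    unfold vec
    rw [e4, Units.val_one, Matrix.one_mulVec]
  unfold codim
  rw [h, finrank_top]
  simp

end

end PQCIC
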