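import Pool.Agent.Helper62.PQ.CIC3

/-!
# PQ row CIC, part 4: transport of primes and ramification groups
-/

set_option autoImplicit false
set_option linter.unusedSectionVars false

open NumberField
open scoped Classical

namespace PQCIC

open BKA PQ PQ30 Pool.Agent.Helper13.Swan

section

variable {F F₀ : Type} [Field F] [NumberField F] [Field F₀] [NumberField F₀] [Algebra F₀ F]
  {δ : F₀} (Q : QD F F₀ δ)

/-- the map of the integers -/
noncomputable def QD.thZ : Zb F →+* Zb F₀ where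
  toFun x := ⟨Q.θ x, x.2.map (Q.θ : AlgebraicClosure F →+* AlgebraicClosure F₀).toIntAlgHom⟩
  map_one' := Subtype.ext (map_one Q.θ)
  map_mul' x y := Subtype.ext (map_mul Q.θ (x : AlgebraicClosure F) (y : AlgebraicClosure F))
  map_zero' := Subtype.ext (map_zero Q.θ)
  map_add' x y := Subtype.ext (map_add Q.θ (x : AlgebraicClosure F) (y : AlgebraicClosure F))

/-- the inverse map of the integers -/
noncomputable def QD.thZi : Zb F₀ →+* Zb F where
  toFun x := ⟨Q.θ.symm x,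
    x.2.map (Q.θ.symm : AlgebraicClosure F₀ →+* AlgebraicClosure F).toIntAlgHom⟩
  map_one' := Subtype.ext (map_one Q.θ.symm)
  map_mul' x y := Subtype.ext (map_mul Q.θ.symm (x : AlgebraicClosure F₀) (y : AlgebraicClosure F₀))
  map_zero' := Subtype.ext (map_zero Q.θ.symm)
  map_add' x y := Subtype.ext (map_add Q.θ.symm (x : AlgebraicClosure F₀) (y : AlgebraicClosure F₀))

theorem QD.thZ_coe (x : Zb F) : ((Q.thZ x : Zb F₀) : AlgebraicClosure F₀) = Q.θ x := rfl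

theorem QD.thZi_coe (x : Zb F₀) : ((Q.thZi x : Zb F) : AlgebraicClosure F) = Q.θ.symm x := rfl

theorem QD.thZ_thZi (x : Zb F₀) : Q.thZ (Q.thZi x) = x := by
  apply Subtype.ext
  rw [Q.thZ_coe, Q.thZi_coe, RingEquiv.apply_symm_apply]

/-- the prime of the closure of `F` -/
noncomputable def QD.pr (𝔓₀ : Ideal (Zb F₀)) : Ideal (Zb F) := 𝔓₀.comap Q.thZ

theorem QD.mem_pr (𝔓₀ : Ideal (Zb F₀)) (x : Zb F) : x ∈ Q.pr 𝔓₀ ↔ Q.thZ x ∈ 𝔓₀ := Iff.rfl

theorem QD.congr_up (𝔓₀ : Ideal (Zb F₀)) (σ : Gal F) :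
    Congr (Q.pr 𝔓₀) 1 σ ↔ Congr 𝔓₀ 1 (Q.up σ) := by
  constructor
  · intro h x y hxy
    have h1 := h (Q.thZi x) (Q.thZi y) (by
      rw [Q.thZi_coe, Q.thZi_coe, hxy, Q.up_apply', RingEquiv.symm_apply_apply])
    rw [Q.mem_pr, map_sub, map_pow, Q.thZ_thZi, Q.thZ_thZi] at h1
    exact h1
  · intro h x y hxy
    rw [Q.mem_pr, map_sub, map_pow]
    refine h (Q.thZ x) (Q.thZ y) ?_
    rw [Q.thZ_coe, Q.thZ_coe, hxy, Q.up_apply]

theorem QD.cc (x : F) : Q.c (Q.c x) = x := by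
  obtain ⟨a, b, hab⟩ := Q.span x
  rw [hab]
  simp only [map_add, map_mul, Q.hc, Q.cy, map_neg, neg_neg]

theorem QD.fixed {x : F} (hx : Q.c x = x) : ∃ a : F₀, x = algebraMap F₀ F a := by
  obtain ⟨a, b, hab⟩ := Q.span x
  refine ⟨a, ?_⟩
  have h := hx
  rw [hab] at h
  simp only [map_add, map_mul, Q.hc, Q.cy] at h
  have h1 : (2 : F) * (algebraMap F₀ F b * Q.y) = 0 := by linear_combination -h
  rcases mul_eq_zero.1 h1 with h2 | h2
  · exact absurd h2 two_ne_zero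
  · rw [hab, h2, add_zero]

/-- the embedding of the integers of `F` -/
noncomputable def emb (F : Type) [Field F] [NumberField F] : 𝓞 F →+* Zb F where
  toFun x := ⟨algebraMap F (AlgebraicClosure F) x,
    (x.isIntegral_coe).map ((algebraMap F (AlgebraicClosure F)).toIntAlgHom)⟩
  map_one' := Subtype.ext (by simp)
  map_mul' x y := Subtype.ext (by simp)
  map_zero' := Subtype.ext (by simp)
  map_add' x y := Subtype.ext (by simp)

theorem over_iff {v : Pl F} {𝔓 : Ideal (Zb F)} (hO : Over v 𝔓) (x : 𝓞 F) :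
    x ∈ v.asIdeal ↔ emb F x ∈ 𝔓 := hO.2 x (emb F x) rfl

theorem QD.over {v : Pl F} {v₀ : Pl F₀} {𝔓₀ : Ideal (Zb F₀)} (hO : Over v₀ 𝔓₀)
    (hv : ∀ x y : 𝓞 F, (y : F) = Q.c (x : F) → y - x ∈ v.asIdeal)
    (hv₀ : v₀.asIdeal = v.asIdeal.comap (algebraMap (𝓞 F₀) (𝓞 F))) : Over v (Q.pr 𝔓₀) := by
  have hprime : (Q.pr 𝔓₀).IsPrime := by
    have := hO.1
    exact Ideal.comap_isPrime _ _
  have hp' : ((Q.pr 𝔓₀).comap (emb F)).IsPrime := Ideal.comap_isPrime _ _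
  have hcomap : ∀ a : 𝓞 F₀, algebraMap (𝓞 F₀) (𝓞 F) a ∈ (Q.pr 𝔓₀).comap (emb F) ↔
      algebraMap (𝓞 F₀) (𝓞 F) a ∈ v.asIdeal := by
    intro a
    rw [Ideal.mem_comap, Q.mem_pr, ← Ideal.mem_comap (f := algebraMap (𝓞 F₀) (𝓞 F)), ← hv₀,
      over_iff hO]
    have : Q.thZ (emb F (algebraMap (𝓞 F₀) (𝓞 F) a)) = emb F₀ a := by
      apply Subtype.ext
      exact Q.hθ a
    rw [this]
  have hsub : (Q.pr 𝔓₀).comap (emb F) ≤ v.asIdeal := by
    intro x hx
    obtain ⟨y, hy⟩ : ∃ y : 𝓞 F, (y : F) = Q.c (x : F) :=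
      ⟨⟨Q.c (x : F), x.isIntegral_coe.map (Q.c : F →+* F).toIntAlgHom⟩, rfl⟩
    have hxy : Q.c ((x * y : 𝓞 F) : F) = ((x * y : 𝓞 F) : F) := by
      rw [show ((x * y : 𝓞 F) : F) = (x : F) * (y : F) from rfl, map_mul, hy, Q.cc]
      ring
    obtain ⟨a, ha⟩ := Q.fixed hxy
    have hai : IsIntegral ℤ a := by
      have h1 : IsIntegral ℤ (algebraMap F₀ F a) := by
        rw [← ha]
        exact (x * y).isIntegral_coe
      exact (isIntegral_algebraMap_iff (algebraMap F₀ F).injective).1 h1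
    obtain ⟨a', ha'⟩ : ∃ a' : 𝓞 F₀, (a' : F₀) = a := ⟨⟨a, hai⟩, rfl⟩
    have h2 : x * y = algebraMap (𝓞 F₀) (𝓞 F) a' := by
      apply RingOfIntegers.ext
      rw [ha, ← ha']
      rfl
    have h3 : x * y ∈ (Q.pr 𝔓₀).comap (emb F) := Ideal.mul_mem_right _ _ hx
    rw [h2, hcomap, ← h2] at h3
    rcases v.isPrime.mem_or_mem h3 with h4 | h4
    · exact h4
    · have h5 := hv x y hy
      have : x = y - (y - x) := by ring
      rw [this]
      exact Ideal.sub_mem _ h4 h5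
  have hne : (Q.pr 𝔓₀).comap (emb F) ≠ ⊥ := by
    intro h
    have hb := v₀.ne_bot
    apply hb
    rw [eq_bot_iff]
    intro a ha
    rw [hv₀, Ideal.mem_comap] at ha
    have h1 := (hcomap a).2 ha
    rw [h, Ideal.mem_bot] at h1
    have h2 : algebraMap F₀ F (a : F₀) = 0 := by
      have := congrArg (fun z : 𝓞 F => (z : F)) h1
      exact this
    have h3 : (a : F₀) = 0 := (map_eq_zero_iff _ (algebraMap F₀ F).injective).1 h2
    exact RingOfIntegers.ext h3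
  have hmax : ((Q.pr 𝔓₀).comap (emb F)).IsMaximal := Ring.DimensionLEOne.maximalOfPrime hne hp'
  have heq := hmax.eq_of_le v.isPrime.ne_top hsub
  refine ⟨hprime, ?_⟩
  intro x y hxy
  have : y = emb F x := Subtype.ext hxy
  rw [this, ← heq]
  rfl

/-- an element of the inertia group that does not fix `F` -/
theorem QD.exists_s (hS : PQ.ST_SUR) {v : Pl F} {v₀ : Pl F₀} {𝔓₀ : Ideal (Zb F₀)}
    (hO₀ : Over v₀ 𝔓₀)
    (hv : ∀ x y : 𝓞 F, (y : F) = Q.c (x : F) → y - x ∈ v.asIdeal)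
    (hO : Over v (Q.pr 𝔓₀)) : ∃ s : Gal F₀, Congr 𝔓₀ 1 s ∧ s ∉ Q.up.range := by
  have hfd : FiniteDimensional F₀ F := FiniteDimensional.of_finrank_pos (by rw [Q.fr]; norm_num)
  have hquad : Algebra.IsQuadraticExtension F₀ F := ⟨Q.fr⟩
  have hnorm : Normal F₀ F := inferInstance
  let ε : F →ₐ[F₀] AlgebraicClosure F₀ :=
    { toFun := fun x => Q.θ (algebraMap F (AlgebraicClosure F) x)
      map_one' := by simp
      map_mul' := by simp
      map_zero' := by simp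
      map_add' := by simp
      commutes' := Q.hθ }
  let L : IntermediateField F₀ (AlgebraicClosure F₀) := ε.fieldRange
  let e : F ≃ₐ[F₀] L := AlgEquiv.ofInjectiveField ε
  have he : ∀ x : F, ((e x : L) : AlgebraicClosure F₀) =
      Q.θ (algebraMap F (AlgebraicClosure F) x) := fun _ => rfl
  have hfdL : FiniteDimensional F₀ L := LinearEquiv.finiteDimensional e.toLinearEquiv
  have hnL : Normal F₀ L := Normal.of_algEquiv e
  let cc : F ≃ₐ[F₀] F := AlgEquiv.ofRingEquiv (f := Q.c.toRingEquiv) Q.hc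
  let g : L ≃ₐ[F₀] L := (e.symm.trans cc).trans e
  have hg : g ∈ Inr L 𝔓₀ := by
    intro x y hxy
    have hx' : IsIntegral ℤ (e.symm (x : L)) :=
      x.isIntegral_coe.map ((e.symm : L →+* F)).toIntAlgHom
    have hy' : IsIntegral ℤ (e.symm (y : L)) :=
      y.isIntegral_coe.map ((e.symm : L →+* F)).toIntAlgHom
    have h1 := hv ⟨e.symm (x : L), hx'⟩ ⟨e.symm (y : L), hy'⟩ (by
      change e.symm (y : L) = Q.c (e.symm (x : L))
      rw [hxy]
      change e.symm (e (Q.c (e.symm (x : L)))) = _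
      rw [AlgEquiv.symm_apply_apply])
    rw [over_iff hO, Q.mem_pr] at h1
    unfold under
    rw [Ideal.mem_comap]
    have h2 : inc L (y - x) = Q.thZ (emb F (⟨e.symm (y : L), hy'⟩ - ⟨e.symm (x : L), hx'⟩)) := by
      apply Subtype.ext
      have e1 : ((inc L (y - x) : Zb F₀) : AlgebraicClosure F₀) =
        ((y : L) : AlgebraicClosure F₀) - ((x : L) : AlgebraicClosure F₀) := rfl
      have e2 : ((Q.thZ (emb F (⟨e.symm (y : L), hy'⟩ - ⟨e.symm (x : L), hx'⟩)) : Zb F₀) :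
          AlgebraicClosure F₀) = Q.θ (algebraMap F (AlgebraicClosure F)
            (e.symm (y : L) - e.symm (x : L))) := rfl
      rw [e1, e2, map_sub, map_sub, ← he, ← he, AlgEquiv.apply_symm_apply,
        AlgEquiv.apply_symm_apply]
    rw [h2]
    exact h1
  obtain ⟨s, hs, hOn⟩ := hS F₀ v₀ 𝔓₀ hO₀ L hfdL hnL g hg
  refine ⟨s, hs, (Q.not_mem s).2 ?_⟩
  have h1 := hOn (e Q.y)
  have h2 : ((g (e Q.y) : L) : AlgebraicClosure F₀) = -Q.z := by
    change ((e (Q.c (e.symm (e Q.y))) : L) : AlgebraicClosure F₀) = -Q.z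
    rw [AlgEquiv.symm_apply_apply, Q.cy, map_neg]
    rfl
  rw [h2] at h1
  exact h1

end

section

variable {F F₀ : Type} [Field F] [NumberField F] [Field F₀] [NumberField F₀] [Algebra F₀ F]
  {δ : F₀} (Q : QD F F₀ δ) {L : IntermediateField F (AlgebraicClosure F)}
  {L' : IntermediateField F₀ (AlgebraicClosure F₀)} (hL : ∀ z, z ∈ L ↔ Q.θ z ∈ L')

/-- the isomorphism of the fields -/
noncomputable def QD.thL : L ≃+* L' where
  toFun x := ⟨Q.θ x, (hL _).1 x.2⟩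
  invFun x := ⟨Q.θ.symm x, (hL _).2 (by rw [RingEquiv.apply_symm_apply]; exact x.2)⟩
  left_inv x := Subtype.ext (Q.θ.symm_apply_apply _)
  right_inv x := Subtype.ext (Q.θ.apply_symm_apply _)
  map_mul' x y := Subtype.ext (map_mul Q.θ _ _)
  map_add' x y := Subtype.ext (map_add Q.θ _ _)

theorem QD.thL_coe (x : L) : ((Q.thL hL x : L') : AlgebraicClosure F₀) = Q.θ x := rfl

/-- the isomorphism of the rings of integers -/
noncomputable def QD.thO : 𝓞 L ≃+* 𝓞 L' := RingOfIntegers.mapRingEquiv (Q.thL hL)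

theorem QD.thO_coe (x : 𝓞 L) : ((Q.thO hL x : 𝓞 L') : L') = Q.thL hL (x : L) := rfl

theorem QD.under_iff (𝔓₀ : Ideal (Zb F₀)) (x : 𝓞 L) :
    x ∈ under L (Q.pr 𝔓₀) ↔ Q.thO hL x ∈ under L' 𝔓₀ := Iff.rfl

theorem QD.pow_iff (𝔓₀ : Ideal (Zb F₀)) (k : ℕ) (x : 𝓞 L) :
    x ∈ under L (Q.pr 𝔓₀) ^ k ↔ Q.thO hL x ∈ under L' 𝔓₀ ^ k := by
  have h1 : under L' 𝔓₀ = (under L (Q.pr 𝔓₀)).map (Q.thO hL : 𝓞 L →+* 𝓞 L') := by
    have h2 : under L (Q.pr 𝔓₀) = (under L' 𝔓₀).comap (Q.thO hL : 𝓞 L →+* 𝓞 L') := rfl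
    rw [h2]
    exact (Ideal.map_comap_of_surjective (Q.thO hL : 𝓞 L →+* 𝓞 L') (Q.thO hL).surjective _).symm
  rw [h1, ← Ideal.map_pow]
  constructor
  · intro h
    exact Ideal.mem_map_of_mem (Q.thO hL : 𝓞 L →+* 𝓞 L') h
  · intro h
    obtain ⟨z, hz, hzx⟩ := (Ideal.mem_map_iff_of_surjective (Q.thO hL : 𝓞 L →+* 𝓞 L')
      (Q.thO hL).surjective).1 h
    have : z = x := (Q.thO hL).injective hzx
    rw [← this]
    exact hz

include hL in
theorem QD.ram_up (𝔓₀ : Ideal (Zb F₀)) (i : ℕ) (σ : Gal F) :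
    Ram L (Q.pr 𝔓₀) i σ ↔ Ram L' 𝔓₀ i (Q.up σ) := by
  constructor
  · intro h x y hxy
    have h1 := h ((Q.thO hL).symm x) ((Q.thO hL).symm y) (by
      apply Q.θ.injective
      have e1 : ∀ z : 𝓞 L', Q.θ ((((Q.thO hL).symm z : 𝓞 L) : L) : AlgebraicClosure F) =
          ((z : L') : AlgebraicClosure F₀) := by
        intro z
        have := Q.thO_coe hL ((Q.thO hL).symm z)
        rw [RingEquiv.apply_symm_apply] at this
        rw [this, Q.thL_coe]
      rw [e1, ← Q.up_apply, e1]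
      exact hxy)
    rw [Q.pow_iff hL, map_sub, RingEquiv.apply_symm_apply, RingEquiv.apply_symm_apply] at h1
    exact h1
  · intro h x y hxy
    rw [Q.pow_iff hL, map_sub]
    refine h (Q.thO hL x) (Q.thO hL y) ?_
    rw [Q.thO_coe, Q.thO_coe, Q.thL_coe, Q.thL_coe, hxy, Q.up_apply]

/-- the embedding of the finite Galois groups -/
noncomputable def QD.upL : (L ≃ₐ[F] L) →* (L' ≃ₐ[F₀] L') where
  toFun g := AlgEquiv.ofRingEquiv (f := ((Q.thL hL).symm.trans g.toRingEquiv).trans (Q.thL hL)) (by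
    intro r
    have h1 : (Q.thL hL).symm (algebraMap F₀ L' r) = algebraMap F L (algebraMap F₀ F r) := by
      rw [RingEquiv.symm_apply_eq]
      apply Subtype.ext
      exact (Q.hθ r).symm
    change Q.thL hL (g ((Q.thL hL).symm (algebraMap F₀ L' r))) = _
    rw [h1, AlgEquiv.commutes]
    apply Subtype.ext
    exact Q.hθ r)
  map_one' := by
    ext x
    change ((Q.thL hL ((Q.thL hL).symm x) : L') : AlgebraicClosure F₀) = _
    rw [RingEquiv.apply_symm_apply]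
    rfl
  map_mul' g h := by
    ext x
    change ((Q.thL hL (g (h ((Q.thL hL).symm x))) : L') : AlgebraicClosure F₀) =
      ((Q.thL hL (g ((Q.thL hL).symm (Q.thL hL (h ((Q.thL hL).symm x))))) : L') :
        AlgebraicClosure F₀)
    rw [RingEquiv.symm_apply_apply]

theorem QD.upL_apply (g : L ≃ₐ[F] L) (x : L) :
    Q.upL hL g (Q.thL hL x) = Q.thL hL (g x) := by
  change Q.thL hL (g ((Q.thL hL).symm (Q.thL hL x))) = _
  rw [RingEquiv.symm_apply_apply]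

theorem QD.upL_inj : Function.Injective (Q.upL hL) := by
  intro g h hgh
  apply AlgEquiv.ext
  intro x
  apply (Q.thL hL).injective
  rw [← Q.upL_apply, ← Q.upL_apply, hgh]

theorem QD.rg_up (𝔓₀ : Ideal (Zb F₀)) (i : ℕ) (g : L ≃ₐ[F] L) :
    g ∈ RGs L (Q.pr 𝔓₀) i ↔ Q.upL hL g ∈ RGs L' 𝔓₀ i := by
  constructor
  · intro h x y hxy
    have e1 : ∀ z : 𝓞 L', Q.thL hL (((Q.thO hL).symm z : 𝓞 L) : L) = (z : L') := by
      intro z
      have := Q.thO_coe hL ((Q.thO hL).symm z)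
      rw [RingEquiv.apply_symm_apply] at this
      exact this.symm
    have h1 := h ((Q.thO hL).symm x) ((Q.thO hL).symm y) (by
      apply (Q.thL hL).injective
      rw [e1, ← Q.upL_apply, e1]
      exact hxy)
    rw [Q.pow_iff hL, map_sub, RingEquiv.apply_symm_apply, RingEquiv.apply_symm_apply] at h1
    exact h1
  · intro h x y hxy
    rw [Q.pow_iff hL, map_sub]
    refine h (Q.thO hL x) (Q.thO hL y) ?_
    rw [Q.thO_coe, Q.thO_coe, hxy, Q.upL_apply]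

/-- the element `√δ` of `L'` -/
noncomputable def QD.zL : L' := Q.thL hL (algebraMap F L Q.y)

theorem QD.zL_coe : ((Q.zL hL : L') : AlgebraicClosure F₀) = Q.z := rfl

theorem QD.zL_pm (g : L' ≃ₐ[F₀] L') : g (Q.zL hL) = Q.zL hL ∨ g (Q.zL hL) = -Q.zL hL := by
  have h0 : (Q.zL hL) ^ 2 = algebraMap F₀ L' δ := by
    apply Subtype.ext
    exact Q.z_sq
  have h : (g (Q.zL hL)) ^ 2 = (Q.zL hL) ^ 2 := by
    rw [← map_pow, h0, AlgEquiv.commutes]
  exact sq_eq_sq_iff_eq_or_eq_neg.1 h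

theorem QD.mem_rangeL (g : L' ≃ₐ[F₀] L') : g ∈ (Q.upL hL).range ↔ g (Q.zL hL) = Q.zL hL := by
  constructor
  · rintro ⟨σ, rfl⟩
    rw [QD.zL, Q.upL_apply, AlgEquiv.commutes]
  · intro hg
    have hfix : ∀ x : F, g (Q.thL hL (algebraMap F L x)) = Q.thL hL (algebraMap F L x) := by
      intro x
      obtain ⟨a, b, hab⟩ := Q.span x
      have e1 : ∀ a : F₀, Q.thL hL (algebraMap F L (algebraMap F₀ F a)) =
          algebraMap F₀ L' a := by
        intro a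
        apply Subtype.ext
        exact Q.hθ a
      rw [hab, map_add, map_add, map_mul, map_mul, e1, e1, map_add, map_mul, AlgEquiv.commutes,
        AlgEquiv.commutes]
      change _ + _ * g (Q.zL hL) = _ + _ * Q.zL hL
      rw [hg]
    refine ⟨AlgEquiv.ofRingEquiv
      (f := ((Q.thL hL).trans g.toRingEquiv).trans (Q.thL hL).symm) ?_, ?_⟩
    · intro x
      change (Q.thL hL).symm (g (Q.thL hL (algebraMap F L x))) = _
      rw [hfix, RingEquiv.symm_apply_apply]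
    · apply AlgEquiv.ext
      intro x
      obtain ⟨x, rfl⟩ := (Q.thL hL).surjective x
      rw [Q.upL_apply]
      change Q.thL hL ((Q.thL hL).symm (g (Q.thL hL x))) = _
      rw [RingEquiv.apply_symm_apply]

theorem QD.not_memL (g : L' ≃ₐ[F₀] L') :
    g ∉ (Q.upL hL).range ↔ g (Q.zL hL) = -Q.zL hL := by
  rw [Q.mem_rangeL hL]
  constructor
  · intro h
    exact (Q.zL_pm hL g).resolve_left h
  · intro h h'
    rw [h'] at h
    have : (2 : L') * Q.zL hL = 0 := by linear_combination h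
    rcases mul_eq_zero.1 this with h1 | h1
    · exact two_ne_zero h1
    · have := congrArg (fun z : L' => (z : AlgebraicClosure F₀)) h1
      exact Q.z_ne this

theorem QD.twoL (g h : L' ≃ₐ[F₀] L') (hg : g ∉ (Q.upL hL).range) (hh : h ∉ (Q.upL hL).range) :
    g * h ∈ (Q.upL hL).range := by
  rw [Q.not_memL] at hg hh
  rw [Q.mem_rangeL, AlgEquiv.mul_apply, hh, map_neg, hg, neg_neg]

theorem QD.card_eq (𝔓₀ : Ideal (Zb F₀)) (i : ℕ)
    (h : ∀ g ∈ RGs L' 𝔓₀ i, g ∈ (Q.upL hL).range) :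
    ramCard L' 𝔓₀ i = ramCard L (Q.pr 𝔓₀) i := by
  rw [ramCard_eq, ramCard_eq]
  refine (Nat.card_congr (Equiv.ofBijective (fun g : RGs L (Q.pr 𝔓₀) i =>
    (⟨Q.upL hL g, (Q.rg_up hL 𝔓₀ i _).1 g.2⟩ : RGs L' 𝔓₀ i)) ⟨?_, ?_⟩)).symm
  · intro a b hab
    exact Subtype.ext (Q.upL_inj hL (congrArg Subtype.val hab))
  · rintro ⟨g, hg⟩
    obtain ⟨σ, hσ⟩ := h g hg
    refine ⟨⟨σ, (Q.rg_up hL 𝔓₀ i _).2 (by rw [hσ]; exact hg)⟩, Subtype.ext hσ⟩

theorem QD.card_two (𝔓₀ : Ideal (Zb F₀)) (i : ℕ) [FiniteDimensional F L] {t : L' ≃ₐ[F₀] L'}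
    (ht : t ∈ RGs L' 𝔓₀ i) (htr : t ∉ (Q.upL hL).range) :
    ramCard L' 𝔓₀ i = 2 * ramCard L (Q.pr 𝔓₀) i := by
  rw [ramCard_eq, ramCard_eq]
  have hfin : Finite (RGs L (Q.pr 𝔓₀) i) := inferInstance
  have hti : t⁻¹ ∉ (Q.upL hL).range := fun hc => htr (by simpa using (Q.upL hL).range.inv_mem hc)
  have h1 : Nat.card (RGs L (Q.pr 𝔓₀) i ⊕ RGs L (Q.pr 𝔓₀) i) =
      2 * Nat.card (RGs L (Q.pr 𝔓₀) i) := by
    rw [Nat.card_sum]
    ring
  rw [← h1]
  refine (Nat.card_congr (Equiv.ofBijective (fun x : RGs L (Q.pr 𝔓₀) i ⊕ RGs L (Q.pr 𝔓₀) i =>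
    (Sum.elim (fun g : RGs L (Q.pr 𝔓₀) i => ⟨Q.upL hL g, (Q.rg_up hL 𝔓₀ i _).1 g.2⟩)
      (fun g : RGs L (Q.pr 𝔓₀) i =>
        ⟨t * Q.upL hL g, (RGs L' 𝔓₀ i).mul_mem ht ((Q.rg_up hL 𝔓₀ i _).1 g.2)⟩) x :
        RGs L' 𝔓₀ i)) ⟨?_, ?_⟩)).symm
  · rintro (a | a) (b | b) hab
    · have := congrArg Subtype.val hab
      exact congrArg Sum.inl (Subtype.ext (Q.upL_inj hL this))
    · exfalso
      have h2 : Q.upL hL a = t * Q.upL hL b := congrArg Subtype.val hab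
      apply htr
      have h3 : t = Q.upL hL a * (Q.upL hL b)⁻¹ := by rw [h2]; group
      rw [h3]
      exact (Q.upL hL).range.mul_mem ⟨_, rfl⟩ ((Q.upL hL).range.inv_mem ⟨_, rfl⟩)
    · exfalso
      have h2 : t * Q.upL hL a = Q.upL hL b := congrArg Subtype.val hab
      apply htr
      have h3 : t = Q.upL hL b * (Q.upL hL a)⁻¹ := by rw [← h2]; group
      rw [h3]
      exact (Q.upL hL).range.mul_mem ⟨_, rfl⟩ ((Q.upL hL).range.inv_mem ⟨_, rfl⟩)
    · have h2 : t * Q.upL hL a = t * Q.upL hL b := congrArg Subtype.val hab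
      exact congrArg Sum.inr (Subtype.ext (Q.upL_inj hL (mul_left_cancel h2)))
  · rintro ⟨g, hg⟩
    by_cases hr : g ∈ (Q.upL hL).range
    · obtain ⟨σ, hσ⟩ := hr
      exact ⟨Sum.inl ⟨σ, (Q.rg_up hL 𝔓₀ i _).2 (by rw [hσ]; exact hg)⟩, Subtype.ext hσ⟩
    · obtain ⟨σ, hσ⟩ := Q.twoL hL t⁻¹ g hti hr
      refine ⟨Sum.inr ⟨σ, (Q.rg_up hL 𝔓₀ i _).2 ?_⟩, Subtype.ext ?_⟩
      · rw [hσ]
        exact (RGs L' 𝔓₀ i).mul_mem ((RGs L' 𝔓₀ i).inv_mem ht) hg
      · change t * Q.upL hL σ = g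
        rw [hσ]
        group

theorem QD.wild_up (hF : PQ.ST_FIN) (hG : PQ.ST_GRP) (hT : PQ.ST_TAME) {v : Pl F} {v₀ : Pl F₀}
    {𝔓₀ : Ideal (Zb F₀)} (hO₀ : Over v₀ 𝔓₀) (hO : Over v (Q.pr 𝔓₀))
    (hv₀ : v₀.asIdeal = v.asIdeal.comap (algebraMap (𝓞 F₀) (𝓞 F))) (σ : Gal F) :
    Wild (Q.pr 𝔓₀) σ ↔ Wild 𝔓₀ (Q.up σ) := by
  obtain ⟨p, hp, hpv⟩ := exists_p v
  have hpv₀ : (p : 𝓞 F₀) ∈ v₀.asIdeal := by
    rw [hv₀, Ideal.mem_comap, map_natCast]
    exact hpv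
  rw [wild_iff hF hG hT hO hp hpv, wild_iff hF hG hT hO₀ hp hpv₀, Q.congr_up]
  refine and_congr_right fun _ => ?_
  constructor
  · intro h x
    obtain ⟨k, hk⟩ := h (Q.θ.symm x)
    refine ⟨k, ?_⟩
    rw [← map_pow, Q.up_apply', hk, RingEquiv.apply_symm_apply]
  · intro h x
    obtain ⟨k, hk⟩ := h (Q.θ x)
    refine ⟨k, Q.θ.injective ?_⟩
    rw [← map_pow, Q.up_apply] at hk
    exact hk

end

end PQCIC
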