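import Pool.Agent.Helper94.PQ.Stmts

/-!
# Two-groups without normal Klein four-groups (row RS1)
-/

set_option autoImplicit false

namespace PQ

namespace RS1

/-- A nontrivial normal subgroup of a finite two-group contains a central involution. -/
theorem exists_central {Q : Type} [Group Q] [Finite Q] (hp : IsPGroup 2 Q) (N : Subgroup Q)
    [N.Normal] (hN : N ≠ ⊥) : ∃ x ∈ N, x ≠ 1 ∧ x * x = 1 ∧ ∀ g, g * x = x * g := by
  have h2 : Fact (Nat.Prime 2) := ⟨Nat.prime_two⟩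
  have hdvd : 2 ∣ Nat.card N := by
    obtain ⟨n, hn⟩ := IsPGroup.iff_card.mp (hp.to_subgroup N)
    have hn0 : n ≠ 0 := by
      rintro rfl
      apply hN
      rw [← Subgroup.card_eq_one, hn, pow_zero]
    rw [hn]
    exact dvd_pow_self 2 hn0
  obtain ⟨b, hb, hb1⟩ := (hp.of_equiv ConjAct.toConjAct).exists_fixed_point_of_prime_dvd_card_of_fixed_point
    N hdvd (a := (1 : N)) (by
      intro g
      simp)
  have hbc : ∀ g, g * (b : Q) = b * g := by
    intro g
    have h := hb (ConjAct.toConjAct g)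
    have h' : g * (b : Q) * g⁻¹ = b := by
      have := congrArg (Subtype.val) h
      simpa [ConjAct.Subgroup.val_conj_smul, ConjAct.smul_def] using this
    calc g * (b : Q) = (g * b * g⁻¹) * g := by group
      _ = b * g := by rw [h']
  have hb1' : (b : Q) ≠ 1 := by
    intro h
    apply hb1
    apply Subtype.ext
    simp [h]
  classical
  have hex : ∃ k, (b : Q) ^ (2 ^ k) = 1 := hp b
  obtain ⟨k, hk, hmin⟩ : ∃ k, (b : Q) ^ (2 ^ k) = 1 ∧ ∀ m < k, ¬ (b : Q) ^ (2 ^ m) = 1 :=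
    ⟨Nat.find hex, Nat.find_spec hex, fun m => Nat.find_min hex⟩
  have hk0 : k ≠ 0 := by
    intro h
    rw [h] at hk
    simp at hk
    exact hb1' (by simp [hk])
  obtain ⟨m, rfl⟩ : ∃ m, k = m + 1 := ⟨k - 1, by omega⟩
  refine ⟨(b : Q) ^ (2 ^ m), N.pow_mem b.2 _, hmin m (by omega), ?_, ?_⟩
  · rw [← pow_add, ← two_mul, ← pow_succ']
    exact hk
  · intro g
    exact ((Commute.pow_right (hbc g : Commute g (b : Q))) _)

section

variable {S : Type} [Group S]

theorem cj_zpow {g a b : S} (h : g * a * g⁻¹ = b) (k : ℤ) : g * a ^ k * g⁻¹ = b ^ k := by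
  rw [← h]
  exact (_root_.conj_zpow).symm

theorem sq_one {a : S} {M : ℕ} (_ : 0 < M) (ho : orderOf a = 2 * M) (r : ℤ)
    (h : a ^ r * a ^ r = 1) : a ^ r = 1 ∨ a ^ r = a ^ M := by
  rw [← zpow_add, ← orderOf_dvd_iff_zpow_eq_one, ho] at h
  push_cast at h
  obtain ⟨q, hq⟩ := h
  have hr : r = M * q := by
    have : 2 * r = 2 * (M * q) := by rw [two_mul, hq]; ring
    linarith
  rcases Int.even_or_odd' q with ⟨t, rfl | rfl⟩
  · left
    rw [← orderOf_dvd_iff_zpow_eq_one, ho]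
    refine ⟨t, ?_⟩
    rw [hr]; push_cast; ring
  · right
    have : a ^ r = a ^ (M : ℤ) := by
      have h1 : r = (M : ℤ) + (2 * M : ℕ) * t := by rw [hr]; push_cast; ring
      rw [h1, zpow_add, zpow_mul, zpow_natCast a (2 * M), ← ho, pow_orderOf_eq_one, one_zpow,
        mul_one]
    rw [this, zpow_natCast]

theorem zpow_M_even {a : S} {M : ℕ} (ho : orderOf a = 2 * M) (q : ℤ) (hq : Even q) :
    a ^ ((M : ℤ) * q) = 1 := by
  obtain ⟨t, rfl⟩ := hq
  rw [← orderOf_dvd_iff_zpow_eq_one, ho]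
  exact ⟨t, by push_cast; ring⟩

theorem zpow_M_odd {a : S} {M : ℕ} (ho : orderOf a = 2 * M) (q : ℤ) (hq : Odd q) :
    a ^ ((M : ℤ) * q) = a ^ M := by
  obtain ⟨t, rfl⟩ := hq
  have h1 : (M : ℤ) * (2 * t + 1) = (M : ℤ) * (t + t) + M := by ring
  rw [h1, zpow_add, zpow_M_even ho _ ⟨t, rfl⟩, one_mul, zpow_natCast]

theorem pow_M_ne {a : S} {M : ℕ} (hM : 0 < M) (ho : orderOf a = 2 * M) : a ^ M ≠ 1 := by
  intro h
  have := Nat.le_of_dvd hM (orderOf_dvd_of_pow_eq_one h)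
  omega

theorem zpow_eq_iff {a : S} {M : ℕ} (ho : orderOf a = 2 * M) {x y : ℤ} (h : a ^ x = a ^ y) :
    (2 * M : ℤ) ∣ x - y := by
  have : a ^ (x - y) = 1 := by rw [zpow_sub, h, mul_inv_cancel]
  rw [← orderOf_dvd_iff_zpow_eq_one, ho] at this
  exact_mod_cast this

/-- the involution of a normal cyclic subgroup is central -/
theorem central_z {a : S} (hn : (Subgroup.zpowers a).Normal) {M : ℕ} (hM : 0 < M)
    (ho : orderOf a = 2 * M) (g : S) : g * a ^ M = a ^ M * g := by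
  obtain ⟨r, hr⟩ := Subgroup.mem_zpowers_iff.mp
    (hn.conj_mem (a ^ M) (Subgroup.pow_mem _ (Subgroup.mem_zpowers a) M) g)
  have hsq : a ^ M * a ^ M = 1 := by
    rw [← pow_add, ← two_mul, ← ho, pow_orderOf_eq_one]
  have h1 : a ^ r * a ^ r = 1 := by
    rw [hr]
    calc g * a ^ M * g⁻¹ * (g * a ^ M * g⁻¹) = g * (a ^ M * a ^ M) * g⁻¹ := by group
      _ = 1 := by rw [hsq]; group
  rcases sq_one hM ho r h1 with h | h
  · exfalso
    apply pow_M_ne hM ho
    have : g * a ^ M * g⁻¹ = 1 := by rw [← hr, h]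
    calc a ^ M = g⁻¹ * (g * a ^ M * g⁻¹) * g := by group
      _ = 1 := by rw [this]; group
  · have h2 : g * a ^ M * g⁻¹ = a ^ M := by rw [← hr, h]
    calc g * a ^ M = (g * a ^ M * g⁻¹) * g := by group
      _ = a ^ M * g := by rw [h2]

/-- self-centralising -/
theorem selfcent [Finite S] (hp : IsPGroup 2 S) (hF : ¬ Four S) (a : S)
    (hn : (Subgroup.zpowers a).Normal)
    (hmax : ∀ b : S, (Subgroup.zpowers b).Normal → orderOf b ≤ orderOf a)
    (M : ℕ) (hM : 0 < M) (ho : orderOf a = 2 * M) (c : S) (hc : c * a = a * c) :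
    c ∈ Subgroup.zpowers a := by
  by_contra hcA
  have hz := central_z hn hM ho
  have hCn : (Subgroup.centralizer (Subgroup.zpowers a : Set S)).Normal := inferInstance
  have hsurj : Function.Surjective (QuotientGroup.mk' (Subgroup.zpowers a)) :=
    QuotientGroup.mk'_surjective _
  have hNn : ((Subgroup.centralizer (Subgroup.zpowers a : Set S)).map
    (QuotientGroup.mk' (Subgroup.zpowers a))).Normal := hCn.map _ hsurj
  have hcC : c ∈ Subgroup.centralizer (Subgroup.zpowers a : Set S) := by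
    rw [Subgroup.mem_centralizer_iff]
    intro h hh
    obtain ⟨k, rfl⟩ := Subgroup.mem_zpowers_iff.mp hh
    exact ((Commute.zpow_right (hc : Commute c a) k)).symm
  have hNne : ((Subgroup.centralizer (Subgroup.zpowers a : Set S)).map
    (QuotientGroup.mk' (Subgroup.zpowers a))) ≠ ⊥ := by
    intro h
    have h1 : QuotientGroup.mk' (Subgroup.zpowers a) c ∈
      ((Subgroup.centralizer (Subgroup.zpowers a : Set S)).map
        (QuotientGroup.mk' (Subgroup.zpowers a))) := Subgroup.mem_map_of_mem _ hcC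
    rw [h, Subgroup.mem_bot] at h1
    exact hcA ((QuotientGroup.eq_one_iff c).mp h1)
  obtain ⟨xb, hxN, hx1, hxx, hxc⟩ := exists_central (hp.to_quotient _) _ hNne
  obtain ⟨x, hxC, rfl⟩ := hxN
  have hxa : x * a = a * x :=
    ((Subgroup.mem_centralizer_iff.mp hxC) a (Subgroup.mem_zpowers a)).symm
  have hxA : x ∉ Subgroup.zpowers a := fun h => hx1 ((QuotientGroup.eq_one_iff x).mpr h)
  have hx2 : x * x ∈ Subgroup.zpowers a := by
    rw [← QuotientGroup.eq_one_iff]
    exact hxx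
  have hxg : ∀ g : S, ∃ m : ℤ, g * x * g⁻¹ = x * a ^ m := by
    intro g
    have h1 : (QuotientGroup.mk' (Subgroup.zpowers a)) (x) =
        (QuotientGroup.mk' (Subgroup.zpowers a)) (g * x * g⁻¹) := by
      rw [map_mul, map_mul, hxc, map_inv]
      group
    have h2 := QuotientGroup.eq.mp h1
    obtain ⟨m, hm⟩ := Subgroup.mem_zpowers_iff.mp h2
    exact ⟨m, by rw [hm]; group⟩
  obtain ⟨k, hk⟩ := Subgroup.mem_zpowers_iff.mp hx2
  have hcom : ∀ i : ℤ, x * a ^ i = a ^ i * x := fun i => (Commute.zpow_right (hxa : Commute x a) i)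
  rcases Int.even_or_odd' k with ⟨j, rfl | rfl⟩
  · apply hF
    have hyA : x * a ^ (-j) ∉ Subgroup.zpowers a := by
      intro h
      exact hxA ((Subgroup.mul_mem_cancel_right _ (Subgroup.zpow_mem _
        (Subgroup.mem_zpowers a) _)).mp h)
    have hyy : x * a ^ (-j) * (x * a ^ (-j)) = 1 := by
      calc x * a ^ (-j) * (x * a ^ (-j)) = x * (a ^ (-j) * x) * a ^ (-j) := by group
        _ = x * (x * a ^ (-j)) * a ^ (-j) := by rw [hcom]
        _ = (x * x) * (a ^ (-j) * a ^ (-j)) := by group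
        _ = a ^ (2 * j) * (a ^ (-j) * a ^ (-j)) := by rw [hk]
        _ = 1 := by rw [← zpow_add, ← zpow_add]; convert zpow_zero a using 2; ring
    refine ⟨a ^ M, x * a ^ (-j), pow_M_ne hM ho, ?_, ?_, ?_, hyy, hz, ?_⟩
    · intro h
      exact hyA (by rw [h]; exact Subgroup.one_mem _)
    · intro h
      exact hyA (by rw [h]; exact Subgroup.pow_mem _ (Subgroup.mem_zpowers a) _)
    · rw [← pow_add, ← two_mul, ← ho, pow_orderOf_eq_one]
    · intro g
      obtain ⟨m, hm⟩ := hxg g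
      obtain ⟨u, hu⟩ := Subgroup.mem_zpowers_iff.mp (hn.conj_mem a (Subgroup.mem_zpowers a) g)
      have h1 : g * (x * a ^ (-j)) * g⁻¹ = (x * a ^ (-j)) * a ^ (m + u * (-j) + j) := by
        calc g * (x * a ^ (-j)) * g⁻¹ = (g * x * g⁻¹) * (g * a ^ (-j) * g⁻¹) := by group
          _ = (x * a ^ m) * (a ^ u) ^ (-j) := by rw [hm, cj_zpow hu.symm]
          _ = (x * a ^ (-j)) * a ^ (m + u * (-j) + j) := by
            rw [← zpow_mul, mul_assoc, mul_assoc, ← zpow_add, ← zpow_add]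
            congr 2; ring
      set r := m + u * (-j) + j with hr
      have h2 : a ^ r * a ^ r = 1 := by
        have h3 : (g * (x * a ^ (-j)) * g⁻¹) * (g * (x * a ^ (-j)) * g⁻¹) = 1 := by
          calc _ = g * (x * a ^ (-j) * (x * a ^ (-j))) * g⁻¹ := by group
            _ = 1 := by rw [hyy]; group
        rw [h1] at h3
        have h4 : a ^ r * (x * a ^ (-j)) = (x * a ^ (-j)) * a ^ r := by
          calc a ^ r * (x * a ^ (-j)) = (a ^ r * x) * a ^ (-j) := by group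
            _ = (x * a ^ r) * a ^ (-j) := by rw [hcom]
            _ = x * a ^ (-j) * a ^ r := by
              rw [mul_assoc, mul_assoc, ← zpow_add, ← zpow_add, add_comm]
        calc a ^ r * a ^ r = (x * a ^ (-j) * (x * a ^ (-j))) * (a ^ r * a ^ r) := by
              rw [hyy, one_mul]
          _ = (x * a ^ (-j)) * ((x * a ^ (-j)) * a ^ r) * a ^ r := by group
          _ = (x * a ^ (-j)) * (a ^ r * (x * a ^ (-j))) * a ^ r := by rw [h4]
          _ = 1 := by rw [← h3]; group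
      rcases sq_one hM ho r h2 with h | h
      · left; rw [h1, h, mul_one]
      · right; rw [h1, h]
  · -- x generates a larger normal cyclic subgroup
    obtain ⟨n, hn2⟩ := (IsPGroup.iff_orderOf.mp hp) a
    have hcop : IsCoprime (2 * j + 1) ((2 : ℤ) ^ n) := by
      apply IsCoprime.pow_right
      exact ⟨1, -j, by ring⟩
    obtain ⟨s, t, hst⟩ := hcop
    have haX : a ∈ Subgroup.zpowers x := by
      have h1 : a = (x * x) ^ s := by
        rw [← hk, ← zpow_mul]
        have h2 : (2 * j + 1) * s = 1 - t * 2 ^ n := by linarith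
        have h3 : a ^ (t * 2 ^ n : ℤ) = 1 := by
          rw [mul_comm, zpow_mul]
          have : ((2 : ℤ) ^ n) = ((2 ^ n : ℕ) : ℤ) := by push_cast; rfl
          rw [this, zpow_natCast, ← hn2, pow_orderOf_eq_one, one_zpow]
        rw [h2, zpow_sub, h3, zpow_one, inv_one, mul_one]
      rw [h1]
      exact Subgroup.zpow_mem _ (Subgroup.mul_mem _ (Subgroup.mem_zpowers x)
        (Subgroup.mem_zpowers x)) _
    have hXn : (Subgroup.zpowers x).Normal := by
      constructor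
      intro y hy g
      obtain ⟨i, rfl⟩ := Subgroup.mem_zpowers_iff.mp hy
      obtain ⟨m, hm⟩ := hxg g
      rw [cj_zpow hm]
      exact Subgroup.zpow_mem _ (Subgroup.mul_mem _ (Subgroup.mem_zpowers x)
        (Subgroup.zpow_mem _ haX _)) _
    have hle : Subgroup.zpowers a ≤ Subgroup.zpowers x := by
      rw [Subgroup.zpowers_le]; exact haX
    have hcard : Nat.card (Subgroup.zpowers x) ≤ Nat.card (Subgroup.zpowers a) := by
      rw [Nat.card_zpowers, Nat.card_zpowers]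
      exact hmax x hXn
    have heq := Subgroup.eq_of_le_of_card_ge hle hcard
    exact hxA (by rw [heq]; exact Subgroup.mem_zpowers x)


/-- no element conjugates `a` to `a * a ^ M` -/
theorem no_modular (hF : ¬ Four S) (a : S)
    (hn : (Subgroup.zpowers a).Normal)
    (h : ℕ) (hh : 0 < h) (he : Even h) (ho : orderOf a = 2 * (2 * h))
    (hsc : ∀ c : S, c * a = a * c → c ∈ Subgroup.zpowers a) (g : S)
    (hg : g * a * g⁻¹ = a * a ^ (2 * h)) : False := by
  have hM : 0 < 2 * h := by omega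
  have hz := central_z hn hM ho
  have hzz : a ^ (2 * h) * a ^ (2 * h) = 1 := by
    rw [← pow_add, ← two_mul, ← ho, pow_orderOf_eq_one]
  have hgz : g * a ^ (2 * h) * g⁻¹ = a ^ (2 * h) := by rw [hz g]; group
  have haz : a * a ^ (2 * h) = a ^ ((1 : ℤ) + 2 * h) := by
    rw [zpow_add, zpow_one]
    congr 1
    rw [← zpow_natCast]; push_cast; rfl
  have hgA : g ∉ Subgroup.zpowers a := by
    intro hgA
    obtain ⟨i, rfl⟩ := Subgroup.mem_zpowers_iff.mp hgA
    have h1 : a ^ i * a * (a ^ i)⁻¹ = a := by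
      rw [← zpow_neg, ← zpow_add_one, ← zpow_add]
      convert zpow_one a using 2; ring
    rw [h1] at hg
    exact pow_M_ne hM ho (by
      have : a * a ^ (2 * h) = a * 1 := by rw [← hg, mul_one]
      exact mul_left_cancel this)
  have hgg : (g * g) * a = a * (g * g) := by
    have h1 : (g * g) * a * (g * g)⁻¹ = a := by
      calc (g * g) * a * (g * g)⁻¹ = g * (g * a * g⁻¹) * g⁻¹ := by group
        _ = g * (a * a ^ (2 * h)) * g⁻¹ := by rw [hg]
        _ = (g * a * g⁻¹) * (g * a ^ (2 * h) * g⁻¹) := by group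
        _ = a * (a ^ (2 * h) * a ^ (2 * h)) := by rw [hg, hgz, mul_assoc]
        _ = a := by rw [hzz, mul_one]
    calc (g * g) * a = ((g * g) * a * (g * g)⁻¹) * (g * g) := by group
      _ = a * (g * g) := by rw [h1]
  obtain ⟨k, hk⟩ := Subgroup.mem_zpowers_iff.mp (hsc _ hgg)
  have hkk : a ^ k = (a * a ^ (2 * h)) ^ k := by
    calc a ^ k = g * (g * g) * g⁻¹ := by rw [hk]; group
      _ = g * a ^ k * g⁻¹ := by rw [hk]
      _ = _ := cj_zpow hg k
  have hkeven : Even k := by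
    rw [haz, ← zpow_mul] at hkk
    obtain ⟨q, hq⟩ := zpow_eq_iff ho hkk
    push_cast at hq
    have h2 : (2 * h : ℤ) * (-k) = (2 * h) * (2 * q) := by linear_combination hq
    have h3 : -k = 2 * q := mul_left_cancel₀ (by positivity) h2
    exact ⟨-q, by linarith⟩
  obtain ⟨j, rfl⟩ := hkeven
  obtain ⟨e, rfl⟩ := he
  -- the involution
  set i : ℤ := -(j * (1 + (e + e : ℕ))) with hi
  have hyy : g * a ^ i * (g * a ^ i) = 1 := by
    calc g * a ^ i * (g * a ^ i) = (g * a ^ i * g⁻¹) * (g * g) * a ^ i := by group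
      _ = (a ^ ((1 : ℤ) + 2 * (e + e : ℕ))) ^ i * a ^ (j + j) * a ^ i := by
        rw [cj_zpow hg, hk, haz]
      _ = 1 := by
        rw [← zpow_mul, ← zpow_add, ← zpow_add, ← orderOf_dvd_iff_zpow_eq_one, ho, hi]
        refine ⟨-(j * (1 + e)), ?_⟩
        push_cast
        ring
  have hyA : g * a ^ i ∉ Subgroup.zpowers a := by
    intro h1
    exact hgA ((Subgroup.mul_mem_cancel_right _ (Subgroup.zpow_mem _
      (Subgroup.mem_zpowers a) _)).mp h1)
  have hya : ∀ v : ℤ, (g * a ^ i) * a ^ v * (g * a ^ i)⁻¹ =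
      a ^ (((1 : ℤ) + 2 * (e + e : ℕ)) * v) := by
    intro v
    calc (g * a ^ i) * a ^ v * (g * a ^ i)⁻¹ = g * a ^ v * g⁻¹ := by group
      _ = _ := by rw [cj_zpow hg, haz, ← zpow_mul]
  apply hF
  refine ⟨a ^ (2 * (e + e)), g * a ^ i, pow_M_ne hM ho, ?_, ?_, hzz, hyy, hz, ?_⟩
  · intro h1
    exact hyA (by rw [h1]; exact Subgroup.one_mem _)
  · intro h1
    exact hyA (by rw [h1]; exact Subgroup.pow_mem _ (Subgroup.mem_zpowers a) _)
  · intro t
    obtain ⟨v, hv⟩ := Subgroup.mem_zpowers_iff.mp (hn.conj_mem a (Subgroup.mem_zpowers a) t⁻¹)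
    set y := g * a ^ i with hy
    -- the parity of v
    have hvo : a ^ (((2 * (e + e) : ℕ) : ℤ) * v) = a ^ (2 * (e + e)) := by
      have h1 := cj_zpow hv.symm ((2 * (e + e) : ℕ) : ℤ)
      rw [zpow_natCast, hz t⁻¹, ← zpow_mul] at h1
      rw [mul_comm, ← h1]
      group
    have hty : (t * y * t⁻¹) * a * (t * y * t⁻¹)⁻¹ = a ^ ((1 : ℤ) + 2 * (e + e : ℕ)) := by
      calc (t * y * t⁻¹) * a * (t * y * t⁻¹)⁻¹
          = t * (y * (t⁻¹ * a * (t⁻¹)⁻¹) * y⁻¹) * t⁻¹ := by group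
        _ = t * (a ^ (((1 : ℤ) + 2 * (e + e : ℕ)) * v)) * t⁻¹ := by rw [← hv, hya]
        _ = t * (a ^ v * a ^ (2 * (e + e))) * t⁻¹ := by
          rw [← hvo, ← zpow_add]
          congr 3
          push_cast; ring
        _ = t * a ^ v * t⁻¹ * (t * a ^ (2 * (e + e)) * t⁻¹) := by group
        _ = t * (t⁻¹ * a * (t⁻¹)⁻¹) * t⁻¹ * (a ^ (2 * (e + e)) * (t * t⁻¹)) := by
          rw [hv, hz t]; group
        _ = a * a ^ (2 * (e + e)) := by group
        _ = _ := haz
    have hcomm : (y⁻¹ * (t * y * t⁻¹)) * a = a * (y⁻¹ * (t * y * t⁻¹)) := by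
      have h1 : y * (a ^ ((1 : ℤ) + 2 * (e + e : ℕ))) * y⁻¹ = a := by
        have := hya ((1 : ℤ) + 2 * (e + e : ℕ))
        rw [this]
        have h2 : ((1 : ℤ) + 2 * (e + e : ℕ)) * ((1 : ℤ) + 2 * (e + e : ℕ)) =
            1 + ((2 * (2 * (e + e)) : ℕ) : ℤ) * (1 + (e + e)) := by push_cast; ring
        rw [h2, zpow_add, zpow_mul, zpow_natCast a (2 * (2 * (e + e))), ← ho,
          pow_orderOf_eq_one, one_zpow, mul_one, zpow_one]
      have h3 : y⁻¹ * (a ^ ((1 : ℤ) + 2 * (e + e : ℕ))) * y = a := by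
        have h4 : y⁻¹ = y := by
          calc y⁻¹ = y⁻¹ * (y * y) := by rw [hyy, mul_one]
            _ = y := by group
        rw [h4] at h1 ⊢
        exact h1
      have h5 : (y⁻¹ * (t * y * t⁻¹)) * a * (y⁻¹ * (t * y * t⁻¹))⁻¹ = a := by
        calc (y⁻¹ * (t * y * t⁻¹)) * a * (y⁻¹ * (t * y * t⁻¹))⁻¹
            = y⁻¹ * ((t * y * t⁻¹) * a * (t * y * t⁻¹)⁻¹) * y := by group
          _ = a := by rw [hty, h3]
      calc (y⁻¹ * (t * y * t⁻¹)) * a
          = ((y⁻¹ * (t * y * t⁻¹)) * a * (y⁻¹ * (t * y * t⁻¹))⁻¹) * (y⁻¹ * (t * y * t⁻¹)) := by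
            group
        _ = _ := by rw [h5]
    obtain ⟨m, hm⟩ := Subgroup.mem_zpowers_iff.mp (hsc _ hcomm)
    have hym : t * y * t⁻¹ = y * a ^ m := by rw [hm]; group
    have hm2 : a ^ m * a ^ m = 1 := by
      have h1 : (y * a ^ m) * (y * a ^ m) = 1 := by
        rw [← hym]
        calc t * y * t⁻¹ * (t * y * t⁻¹) = t * (y * y) * t⁻¹ := by group
          _ = 1 := by rw [hyy]; group
      have h2 : a ^ (((1 : ℤ) + 2 * (e + e : ℕ)) * m + m) = 1 := by
        calc a ^ (((1 : ℤ) + 2 * (e + e : ℕ)) * m + m) = (y * a ^ m * y⁻¹) * a ^ m := by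
              rw [hya, ← zpow_add]
          _ = (y * a ^ m * y⁻¹) * (y * y) * a ^ m := by rw [hyy, mul_one]
          _ = (y * a ^ m) * (y * a ^ m) := by group
          _ = 1 := h1
      rw [← orderOf_dvd_iff_zpow_eq_one, ho] at h2
      obtain ⟨q, hq⟩ := h2
      rw [← zpow_add, ← orderOf_dvd_iff_zpow_eq_one, ho]
      refine ⟨q * (1 + (e + e)) - m * (1 + e), ?_⟩
      push_cast at hq ⊢
      linear_combination (1 + ((e : ℤ) + e)) * hq
    rcases sq_one hM ho m hm2 with h1 | h1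
    · left; rw [hym, h1, mul_one]
    · right; rw [hym, h1]


/-- the possible actions on `a` -/
theorem action (hp : IsPGroup 2 S) [Finite S] (a : S) (m : ℕ)
    (ho : orderOf a = 2 * 2 ^ m) (hm : 1 ≤ m) (hn : (Subgroup.zpowers a).Normal)
    (hnm : 2 ≤ m → ∀ g : S, g * a * g⁻¹ ≠ a * a ^ (2 ^ m)) (g : S) :
    g * a = a * g ∨ g * a * g⁻¹ = a⁻¹ ∨ (2 ≤ m ∧ g * a * g⁻¹ = a⁻¹ * a ^ (2 ^ m)) := by
  have hM : 0 < 2 ^ m := by positivity
  have hz := central_z hn hM ho
  -- exponents are odd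
  have hodd : ∀ (g : S) (u : ℤ), g * a * g⁻¹ = a ^ u → Odd u := by
    intro g u hu
    by_contra hne
    rw [Int.not_odd_iff_even] at hne
    have h1 := cj_zpow hu ((2 ^ m : ℕ) : ℤ)
    rw [zpow_natCast, hz g, ← zpow_mul, mul_comm u, zpow_M_even ho u hne] at h1
    apply pow_M_ne hM ho
    rw [← h1]; group
  have hdvd : ∀ r x : ℤ, Odd r → ((2 ^ m : ℕ) : ℤ) ∣ x * r → ((2 ^ m : ℕ) : ℤ) ∣ x := by
    intro r x hr h
    have hc : IsCoprime (((2 ^ m : ℕ) : ℤ)) r := by
      push_cast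
      apply IsCoprime.pow_left
      obtain ⟨t, rfl⟩ := hr
      exact ⟨-t, 1, by ring⟩
    exact hc.dvd_of_dvd_mul_right h
  -- the square commutes
  have hsq : (g * g) * a = a * (g * g) := by
    by_contra hcon
    classical
    have hex : ∃ k, (g ^ (2 ^ k)) * a = a * (g ^ (2 ^ k)) := by
      obtain ⟨k, hk⟩ := hp g
      exact ⟨k, by rw [hk]; simp⟩
    obtain ⟨k, hk, hmin⟩ : ∃ k, (g ^ (2 ^ k)) * a = a * (g ^ (2 ^ k)) ∧
        ∀ j < k, ¬ (g ^ (2 ^ j)) * a = a * (g ^ (2 ^ j)) :=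
      ⟨Nat.find hex, Nat.find_spec hex, fun _ => Nat.find_min hex⟩
    have hk0 : k ≠ 0 := by
      rintro rfl
      apply hcon
      have h1 : g * a = a * g := by simpa using hk
      have h1 : Commute g a := h1
      exact (h1.mul_left h1 : Commute (g * g) a)
    have hk1 : k ≠ 1 := by
      rintro rfl
      apply hcon
      simpa [pow_two] using hk
    obtain ⟨j, rfl⟩ : ∃ j, k = j + 2 := ⟨k - 2, by omega⟩
    set t := g ^ (2 ^ j) with ht
    have ht1 : g ^ (2 ^ (j + 1)) = t * t := by rw [ht, ← pow_add, pow_succ]; congr 1; ring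
    have ht2 : g ^ (2 ^ (j + 2)) = (t * t) * (t * t) := by
      rw [ht, ← pow_add, ← pow_add]; congr 1; ring
    obtain ⟨u, hu⟩ := Subgroup.mem_zpowers_iff.mp (hn.conj_mem a (Subgroup.mem_zpowers a) t)
    have hu' := hodd t u hu.symm
    have hw : (t * t) * a * (t * t)⁻¹ = a ^ (u * u) := by
      calc (t * t) * a * (t * t)⁻¹ = t * (t * a * t⁻¹) * t⁻¹ := by group
        _ = t * a ^ u * t⁻¹ := by rw [hu]
        _ = _ := by rw [cj_zpow hu.symm, ← zpow_mul]
    have hww : (t * t) * (t * t) * a * ((t * t) * (t * t))⁻¹ = a ^ ((u * u) * (u * u)) := by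
      calc (t * t) * (t * t) * a * ((t * t) * (t * t))⁻¹
          = (t * t) * ((t * t) * a * (t * t)⁻¹) * (t * t)⁻¹ := by group
        _ = (t * t) * a ^ (u * u) * (t * t)⁻¹ := by rw [hw]
        _ = _ := by rw [cj_zpow hw, ← zpow_mul]
    rw [ht2] at hk
    have h1 : a ^ ((u * u) * (u * u)) = a ^ (1 : ℤ) := by
      rw [← hww, hk, zpow_one]; group
    have h2 := zpow_eq_iff ho h1
    obtain ⟨s, hs⟩ := hu'
    have h3 : ((2 ^ m : ℕ) : ℤ) ∣ (u * u - 1) * (2 * s * s + 2 * s + 1) := by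
      obtain ⟨q, hq⟩ := h2
      refine ⟨q, ?_⟩
      have h4 : u * u + 1 = 2 * (2 * s * s + 2 * s + 1) := by rw [hs]; ring
      have h5 : 2 * ((u * u - 1) * (2 * s * s + 2 * s + 1)) = 2 * (((2 ^ m : ℕ) : ℤ) * q) := by
        calc 2 * ((u * u - 1) * (2 * s * s + 2 * s + 1)) = (u * u - 1) * (u * u + 1) := by
              rw [h4]; ring
          _ = u * u * (u * u) - 1 := by ring
          _ = _ := by rw [hq]; ring
      exact mul_left_cancel₀ (by norm_num) h5
    obtain ⟨q, hq⟩ := hdvd _ _ ⟨s * s + s, by ring⟩ h3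
    have hwa : (t * t) * a * (t * t)⁻¹ = a * a ^ (((2 ^ m : ℕ) : ℤ) * q) := by
      rw [hw, ← hq, ← zpow_one_add]; congr 1; ring
    have hnc := hmin (j + 1) (by omega)
    rw [ht1] at hnc
    rcases Int.even_or_odd q with hq' | hq'
    · rw [zpow_M_even ho q hq', mul_one] at hwa
      apply hnc
      calc t * t * a = (t * t * a * (t * t)⁻¹) * (t * t) := by group
        _ = _ := by rw [hwa]
    · rw [zpow_M_odd ho q hq'] at hwa
      rcases Nat.lt_or_ge m 2 with hm2 | hm2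
      · have hm1 : m = 1 := by omega
        subst hm1
        -- `u * u - 1` is divisible by `4`
        have h6 : u * u - 1 = 4 * (s * s + s) := by rw [hs]; ring
        have h7 : (4 : ℤ) * (s * s + s) = 2 * q := by rw [← h6, hq]; push_cast; ring
        obtain ⟨r, hr⟩ := hq'
        omega
      · exact hnm hm2 _ hwa
  -- conclusion
  obtain ⟨u, hu⟩ := Subgroup.mem_zpowers_iff.mp (hn.conj_mem a (Subgroup.mem_zpowers a) g)
  have hu' := hodd g u hu.symm
  have hw : (g * g) * a * (g * g)⁻¹ = a ^ (u * u) := by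
    calc (g * g) * a * (g * g)⁻¹ = g * (g * a * g⁻¹) * g⁻¹ := by group
      _ = g * a ^ u * g⁻¹ := by rw [hu]
      _ = _ := by rw [cj_zpow hu.symm, ← zpow_mul]
  have h1 : a ^ (u * u) = a ^ (1 : ℤ) := by
    rw [← hw, hsq, zpow_one]; group
  obtain ⟨q, hq⟩ := zpow_eq_iff ho h1
  obtain ⟨s, hs⟩ := hu'
  rcases Int.even_or_odd' s with ⟨r, hr | hr⟩
  · -- u = 1 + 4 r
    have h3 : ((2 ^ m : ℕ) : ℤ) ∣ (u - 1) * (2 * r + 1) := by
      refine ⟨q, ?_⟩
      have h5 : 2 * ((u - 1) * (2 * r + 1)) = 2 * (((2 ^ m : ℕ) : ℤ) * q) := by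
        calc 2 * ((u - 1) * (2 * r + 1)) = (u - 1) * (u + 1) := by rw [hs, hr]; ring
          _ = u * u - 1 := by ring
          _ = _ := by rw [hq]; ring
      exact mul_left_cancel₀ (by norm_num) h5
    obtain ⟨q', hq'⟩ := hdvd _ _ ⟨r, rfl⟩ h3
    have hga : g * a * g⁻¹ = a * a ^ (((2 ^ m : ℕ) : ℤ) * q') := by
      rw [← hu, ← hq', ← zpow_one_add]; congr 1; ring
    rcases Int.even_or_odd q' with he | ho'
    · left
      rw [zpow_M_even ho q' he, mul_one] at hga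
      calc g * a = (g * a * g⁻¹) * g := by group
        _ = _ := by rw [hga]
    · rw [zpow_M_odd ho q' ho'] at hga
      rcases Nat.lt_or_ge m 2 with hm2 | hm2
      · have hm1 : m = 1 := by omega
        subst hm1
        exfalso
        obtain ⟨x, hx⟩ := ho'
        push_cast at hq'
        omega
      · exact absurd hga (hnm hm2 g)
  · -- u = 3 + 4 r
    have h3 : ((2 ^ m : ℕ) : ℤ) ∣ (u + 1) * (2 * r + 1) := by
      refine ⟨q, ?_⟩
      have h5 : 2 * ((u + 1) * (2 * r + 1)) = 2 * (((2 ^ m : ℕ) : ℤ) * q) := by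
        calc 2 * ((u + 1) * (2 * r + 1)) = (u + 1) * (u - 1) := by rw [hs, hr]; ring
          _ = u * u - 1 := by ring
          _ = _ := by rw [hq]; ring
      exact mul_left_cancel₀ (by norm_num) h5
    obtain ⟨q', hq'⟩ := hdvd _ _ ⟨r, rfl⟩ h3
    have hga : g * a * g⁻¹ = a⁻¹ * a ^ (((2 ^ m : ℕ) : ℤ) * q') := by
      rw [← hu, ← hq', ← zpow_neg_one, ← zpow_add]; congr 1; ring
    rcases Int.even_or_odd q' with he | ho'
    · right; left
      rw [zpow_M_even ho q' he, mul_one] at hga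
      exact hga
    · rw [zpow_M_odd ho q' ho'] at hga
      rcases Nat.lt_or_ge m 2 with hm2 | hm2
      · have hm1 : m = 1 := by omega
        subst hm1
        exfalso
        obtain ⟨x, hx⟩ := ho'
        push_cast at hq'
        omega
      · exact Or.inr (Or.inr ⟨hm2, hga⟩)

theorem zpow_mem_iff_comm {a : S} (hsc : ∀ c : S, c * a = a * c → c ∈ Subgroup.zpowers a)
    {g : S} (h : g * a * g⁻¹ = a) : g ∈ Subgroup.zpowers a := by
  apply hsc
  calc g * a = (g * a * g⁻¹) * g := by group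
    _ = _ := by rw [h]

theorem inv_conj {a z g : S} (hz : ∀ g : S, g * z = z * g) (h : g * a * g⁻¹ = a⁻¹ * z) :
    g⁻¹ * a * g = a⁻¹ * z := by
  have h3 : a = (g⁻¹ * a⁻¹ * g) * z := by
    calc a = g⁻¹ * (g * a * g⁻¹) * g := by group
      _ = g⁻¹ * (a⁻¹ * z) * g := by rw [h]
      _ = (g⁻¹ * a⁻¹ * g) * (g⁻¹ * (z * g)) := by group
      _ = (g⁻¹ * a⁻¹ * g) * z := by rw [← hz g]; group
  have h4 : g⁻¹ * a⁻¹ * g = a * z⁻¹ := by
    calc g⁻¹ * a⁻¹ * g = ((g⁻¹ * a⁻¹ * g) * z) * z⁻¹ := by group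
      _ = a * z⁻¹ := by rw [← h3]
  calc g⁻¹ * a * g = (g⁻¹ * a⁻¹ * g)⁻¹ := by group
    _ = z * a⁻¹ := by rw [h4]; group
    _ = a⁻¹ * z := (hz a⁻¹).symm

end

end RS1

/-- RS1 -/
theorem st_RS1 : ST_RS1 := by
  intro S _ _ hp hnt hF
  -- a normal cyclic subgroup of maximal order
  obtain ⟨a, hn, hmax⟩ := Set.exists_max_image {b : S | (Subgroup.zpowers b).Normal} orderOf
    (Set.toFinite _) ⟨1, by
      show (Subgroup.zpowers (1 : S)).Normal
      rw [Subgroup.zpowers_one_eq_bot]; infer_instance⟩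
  have hn : (Subgroup.zpowers a).Normal := hn
  have hmax : ∀ b : S, (Subgroup.zpowers b).Normal → orderOf b ≤ orderOf a := fun b hb => hmax b hb
  have h1a : 1 < orderOf a := by
    obtain ⟨x, -, hx1, -, hxc⟩ := RS1.exists_central hp (⊤ : Subgroup S) (by
      intro h
      exact absurd h.symm bot_ne_top)
    have hxn : (Subgroup.zpowers x).Normal := by
      constructor
      intro y hy g
      obtain ⟨i, rfl⟩ := Subgroup.mem_zpowers_iff.mp hy
      have : g * x ^ i * g⁻¹ = x ^ i := by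
        have := (Commute.zpow_right (hxc g : Commute g x) i)
        calc g * x ^ i * g⁻¹ = x ^ i * g * g⁻¹ := by rw [this]
          _ = x ^ i := by group
      rw [this]
      exact Subgroup.zpow_mem _ (Subgroup.mem_zpowers x) _
    have h2 := hmax x hxn
    have h3 : orderOf x ≠ 1 := by rwa [Ne, orderOf_eq_one_iff]
    have h4 : 0 < orderOf x := orderOf_pos x
    omega
  obtain ⟨n, hn2⟩ := (IsPGroup.iff_orderOf.mp hp) a
  obtain ⟨m, rfl⟩ : ∃ m, n = m + 1 := by
    refine ⟨n - 1, ?_⟩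
    have : n ≠ 0 := by
      rintro rfl
      rw [hn2] at h1a
      simp at h1a
    omega
  have ho : orderOf a = 2 * 2 ^ m := by rw [hn2, pow_succ]; ring
  have hM : 0 < 2 ^ m := by positivity
  have hz := RS1.central_z hn hM ho
  have hsc := RS1.selfcent hp hF a hn hmax (2 ^ m) hM ho
  have hzz : a ^ (2 ^ m) * a ^ (2 ^ m) = 1 := by
    rw [← pow_add, ← two_mul, ← ho, pow_orderOf_eq_one]
  refine ⟨a ^ (2 ^ m), a, 2 ^ m, hM, ho, rfl, hz, ?_⟩
  by_cases hall : ∀ g, g ∈ Subgroup.zpowers a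
  · exact Or.inl hall
  right
  push Not at hall
  obtain ⟨s, hs⟩ := hall
  have hm1 : 1 ≤ m := by
    by_contra hm0
    have hm0 : m = 0 := by omega
    subst hm0
    apply hs
    apply hsc
    simpa using hz s
  have hnm : 2 ≤ m → ∀ g : S, g * a * g⁻¹ ≠ a * a ^ (2 ^ m) := by
    intro hm2 g hg
    obtain ⟨e, rfl⟩ : ∃ e, m = e + 2 := ⟨m - 2, by omega⟩
    have h1 : 2 ^ (e + 2) = 2 * 2 ^ (e + 1) := by rw [pow_succ 2 (e + 1)]; ring
    rw [h1] at hg ho
    exact RS1.no_modular hF a hn (2 ^ (e + 1)) (by positivity)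
      ⟨2 ^ e, by rw [pow_succ]; ring⟩ ho hsc g hg
  have hact := RS1.action hp a m ho hm1 hn hnm
  have hactA : ∀ g, g ∉ Subgroup.zpowers a → g * a * g⁻¹ = a⁻¹ ∨
      (2 ≤ m ∧ g * a * g⁻¹ = a⁻¹ * a ^ (2 ^ m)) := by
    intro g hg
    rcases hact g with h | h
    · exact absurd (hsc g h) hg
    · exact h
  have hinv : ∀ g, g * a * g⁻¹ = a⁻¹ → g⁻¹ * a * g = a⁻¹ := by
    intro g hg
    have h1 : g * a * g⁻¹ = a⁻¹ * 1 := by rw [hg, mul_one]
    have h2 := RS1.inv_conj (z := (1 : S)) (fun g => by simp) h1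
    rw [h2, mul_one]
  have hcoset : ∀ g, g ∈ Subgroup.zpowers a ∨ s⁻¹ * g ∈ Subgroup.zpowers a := by
    intro g
    by_cases hg : g ∈ Subgroup.zpowers a
    · exact Or.inl hg
    right
    apply RS1.zpow_mem_iff_comm hsc
    have h0 : s⁻¹ * g * a * (s⁻¹ * g)⁻¹ = s⁻¹ * (g * a * g⁻¹) * s := by group
    rw [h0]
    rcases hactA g hg with h1 | ⟨hm2, h1⟩
    · rw [h1]
      rcases hactA s hs with h2 | ⟨hm2, h2⟩
      · have h3 := hinv s h2
        calc s⁻¹ * a⁻¹ * s = (s⁻¹ * a * s)⁻¹ := by group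
          _ = a := by rw [h3, inv_inv]
      · exfalso
        have h3 := RS1.inv_conj hz h2
        apply hnm hm2 (s⁻¹ * g)
        rw [h0, h1]
        calc s⁻¹ * a⁻¹ * s = (s⁻¹ * a * s)⁻¹ := by group
          _ = (a ^ (2 ^ m))⁻¹ * a := by rw [h3]; group
          _ = a ^ (2 ^ m) * a := by rw [inv_eq_of_mul_eq_one_right hzz]
          _ = a * a ^ (2 ^ m) := (hz a).symm
    · rw [h1]
      have h4 : s⁻¹ * (a⁻¹ * a ^ (2 ^ m)) * s = (s⁻¹ * a * s)⁻¹ * a ^ (2 ^ m) := by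
        calc s⁻¹ * (a⁻¹ * a ^ (2 ^ m)) * s = s⁻¹ * a⁻¹ * (a ^ (2 ^ m) * s) := by group
          _ = s⁻¹ * a⁻¹ * (s * a ^ (2 ^ m)) := by rw [hz s]
          _ = _ := by group
      rcases hactA s hs with h2 | ⟨-, h2⟩
      · exfalso
        have h3 := hinv s h2
        apply hnm hm2 (s⁻¹ * g)
        rw [h0, h1, h4, h3, inv_inv]
      · have h3 := RS1.inv_conj hz h2
        rw [h4, h3]
        calc (a⁻¹ * a ^ (2 ^ m))⁻¹ * a ^ (2 ^ m) = (a ^ (2 ^ m))⁻¹ * (a * a ^ (2 ^ m)) := by group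
          _ = (a ^ (2 ^ m))⁻¹ * (a ^ (2 ^ m) * a) := by rw [hz a]
          _ = a := by group
  have hss : (s * s) * a = a * (s * s) := by
    have h1 : s * s * a * (s * s)⁻¹ = a := by
      have h0 : s * s * a * (s * s)⁻¹ = s * (s * a * s⁻¹) * s⁻¹ := by group
      rw [h0]
      rcases hactA s hs with h2 | ⟨-, h2⟩
      · rw [h2]
        calc s * a⁻¹ * s⁻¹ = (s * a * s⁻¹)⁻¹ := by group
          _ = a := by rw [h2, inv_inv]
      · rw [h2]
        calc s * (a⁻¹ * a ^ (2 ^ m)) * s⁻¹ = (s * a * s⁻¹)⁻¹ * (s * a ^ (2 ^ m)) * s⁻¹ := by group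
          _ = (a⁻¹ * a ^ (2 ^ m))⁻¹ * (a ^ (2 ^ m) * s) * s⁻¹ := by rw [h2, hz s]
          _ = (a ^ (2 ^ m))⁻¹ * (a * a ^ (2 ^ m)) := by group
          _ = (a ^ (2 ^ m))⁻¹ * (a ^ (2 ^ m) * a) := by rw [hz a]
          _ = a := by group
    calc s * s * a = (s * s * a * (s * s)⁻¹) * (s * s) := by group
      _ = _ := by rw [h1]
  obtain ⟨k, hk⟩ := Subgroup.mem_zpowers_iff.mp (hsc _ hss)
  have hMe : Even (2 ^ m) := (Nat.even_pow' (by omega)).mpr even_two
  have hsk : s * a ^ k * s⁻¹ = a ^ k := by rw [hk]; group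
  rcases hactA s hs with h2 | ⟨hm2, h2⟩
  · have h3 : a ^ k * a ^ k = 1 := by
      have h4 := RS1.cj_zpow h2 k
      rw [hsk, inv_zpow] at h4
      nth_rewrite 1 [h4]
      group
    refine ⟨s, hMe, hs, hcoset, ?_⟩
    rcases RS1.sq_one hM ho k h3 with h | h
    · exact Or.inl ⟨by rw [← hk, h], Or.inl h2⟩
    · exact Or.inr ⟨by rw [← hk, h], h2⟩
  · have hMM : Even (2 ^ m / 2) := by
      obtain ⟨e, rfl⟩ : ∃ e, m = e + 2 := ⟨m - 2, by omega⟩
      have h1 : 2 ^ (e + 2) / 2 = 2 ^ (e + 1) := by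
        rw [pow_succ 2 (e + 1)]; simp
      rw [h1]
      exact (Nat.even_pow' (by omega)).mpr even_two
    have h4 := RS1.cj_zpow h2 k
    rw [hsk] at h4
    have h5 : a⁻¹ * a ^ (2 ^ m) = a ^ ((2 ^ m : ℕ) - 1 : ℤ) := by
      rw [sub_eq_neg_add, zpow_add, zpow_neg_one, zpow_natCast]
    rw [h5, ← zpow_mul] at h4
    have h6 := RS1.zpow_eq_iff ho h4
    obtain ⟨q, hq⟩ := h6
    have hke : Even k := by
      obtain ⟨e, rfl⟩ : ∃ e, m = e + 2 := ⟨m - 2, by omega⟩
      push_cast at hq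
      have h7 : (2 : ℤ) ^ (e + 2) = 4 * 2 ^ e := by ring
      rw [h7] at hq
      have h8 : 2 * k = 2 * (2 * (2 ^ e * (2 * q + k))) := by linear_combination hq
      have h9 : k = 2 * (2 ^ e * (2 * q + k)) := by linarith
      exact ⟨2 ^ e * (2 * q + k), by linarith⟩
    have h3 : a ^ k * a ^ k = 1 := by
      obtain ⟨j, hj⟩ := hke
      rw [← zpow_add, ← orderOf_dvd_iff_zpow_eq_one, ho]
      refine ⟨q + j, ?_⟩
      push_cast at hq ⊢
      linear_combination hq + (2 : ℤ) ^ m * hj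
    rcases RS1.sq_one hM ho k h3 with h | h
    · exact ⟨s, hMe, hs, hcoset, Or.inl ⟨by rw [← hk, h], Or.inr ⟨hMM, h2⟩⟩⟩
    · refine ⟨s * a, hMe, ?_, ?_, Or.inl ⟨?_, Or.inr ⟨hMM, ?_⟩⟩⟩
      · intro h1
        exact hs ((Subgroup.mul_mem_cancel_right _ (Subgroup.mem_zpowers a)).mp h1)
      · intro g
        rcases hcoset g with h1 | h1
        · exact Or.inl h1
        · right
          have h7 : (s * a)⁻¹ * g = a⁻¹ * (s⁻¹ * g) := by group
          rw [h7]
          exact Subgroup.mul_mem _ (Subgroup.inv_mem _ (Subgroup.mem_zpowers a)) h1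
      · calc s * a * (s * a) = (s * a * s⁻¹) * (s * s) * a := by group
          _ = (a⁻¹ * a ^ (2 ^ m)) * a ^ (2 ^ m) * a := by rw [h2, ← hk, h]
          _ = a⁻¹ * (a ^ (2 ^ m) * a ^ (2 ^ m)) * a := by group
          _ = 1 := by rw [hzz]; group
      · calc s * a * a * (s * a)⁻¹ = s * a * s⁻¹ := by group
          _ = _ := h2

end PQ
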