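import Pool.Agent.Helper94.PQ.StmtsT

/-!
# PQ row TENS: the square root in the tensor product
-/

set_option autoImplicit false

open NumberField
open scoped TensorProduct

namespace PQ

/-- TENS: the square root in the tensor product. -/
theorem st_TENS : ST_TENS := by
  intro F E _ _ _ _ δ c hδ hc h
  have hQF : Algebra.Etale ℚ F :=
    ⟨(Algebra.FormallyEtale.iff_isSeparable ℚ F).2 inferInstance,
      Algebra.FinitePresentation.of_finiteType.mp inferInstance⟩
  have het : Algebra.Etale E (E ⊗[ℚ] F) := inferInstance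
  obtain ⟨I, _, Ai, _, _, e, he⟩ := (Algebra.Etale.iff_exists_algEquiv_prod E (E ⊗[ℚ] F)).1 het
  have key : ∀ i, ∃ s : Ai i, s * s = e (c ⊗ₜ δ) i := by
    intro i
    have hfin : Module.Finite E (Ai i) := (he i).1
    let ιF : F →+* Ai i := ((Pi.evalRingHom Ai i).comp (e : (E ⊗[ℚ] F) →+* Π i, Ai i)).comp
      (Algebra.TensorProduct.includeRight : F →ₐ[ℚ] E ⊗[ℚ] F).toRingHom
    let _ : Algebra F (Ai i) := ιF.toAlgebra
    let _ : Algebra ℚ (Ai i) := ((algebraMap E (Ai i)).comp (algebraMap ℚ E)).toAlgebra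
    have t1 : IsScalarTower ℚ E (Ai i) := IsScalarTower.of_algebraMap_eq' rfl
    have t2 : IsScalarTower ℚ F (Ai i) := IsScalarTower.of_algebraMap_eq' (Subsingleton.elim _ _)
    have hfinQ : Module.Finite ℚ (Ai i) := Module.Finite.trans E (Ai i)
    have hfinF : Module.Finite F (Ai i) := Module.Finite.of_restrictScalars_finite ℚ F (Ai i)
    have halg : Algebra.IsAlgebraic F (Ai i) := inferInstance
    let φ : Ai i →ₐ[F] AlgebraicClosure F := IsAlgClosed.lift
    obtain ⟨y, hy⟩ := IsAlgClosed.exists_pow_nat_eq (algebraMap F (AlgebraicClosure F) δ)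
      (n := 2) (by norm_num)
    obtain ⟨t, ht⟩ := IsAlgClosed.exists_pow_nat_eq
      ((φ.toRingHom.comp (algebraMap E (Ai i))) c) (n := 2) (by norm_num)
    have hmem := h (φ.toRingHom.comp (algebraMap E (Ai i))) y t hy ht
    have hle : adj (F := F) (φ.toRingHom.comp (algebraMap E (Ai i))) ≤ φ.fieldRange := by
      refine IntermediateField.adjoin_le_iff.2 ?_
      rintro _ ⟨x, rfl⟩
      exact ⟨algebraMap E (Ai i) x, rfl⟩
    obtain ⟨s, hs⟩ := hle hmem
    refine ⟨s, φ.toRingHom.injective ?_⟩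
    have e1 : e (c ⊗ₜ δ) i = algebraMap E (Ai i) c * algebraMap F (Ai i) δ := by
      have : (c ⊗ₜ δ : E ⊗[ℚ] F) = algebraMap E (E ⊗[ℚ] F) c *
          (Algebra.TensorProduct.includeRight : F →ₐ[ℚ] E ⊗[ℚ] F) δ := by
        rw [Algebra.TensorProduct.algebraMap_apply, Algebra.TensorProduct.includeRight_apply,
          Algebra.TensorProduct.tmul_mul_tmul]
        simp
      rw [this, map_mul, Pi.mul_apply, AlgEquiv.commutes, Pi.algebraMap_apply]
      rfl
    have hs' : φ s = t * y := hs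
    have e2 : φ (algebraMap F (Ai i) δ) = algebraMap F (AlgebraicClosure F) δ := φ.commutes δ
    have ht' : t ^ 2 = φ (algebraMap E (Ai i) c) := ht
    change φ (s * s) = φ (e (c ⊗ₜ δ) i)
    rw [e1, map_mul, map_mul, hs', e2, ← hy, ← ht']
    ring
  choose s hs using key
  refine ⟨e.symm s, ?_⟩
  rw [← map_mul, AlgEquiv.symm_apply_eq]
  funext i
  exact hs i

end PQ
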